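import Pool.Agent.MP_249f74_an.H44.Roll

/-!
The order of an invariant along the edge of regression.
-/

open MvPolynomial

namespace Pool.Agent.MP_249f74_an.H44

open H65

variable {k L K ι : Type} [Field k] [Field L] [Field K] [Algebra k K] [Fintype ι] [DecidableEq ι]

lemma ord {P Q : Type} [CommRing P] [Algebra k P] [CommRing Q] [IsDomain Q]
    (T : P →+* Polynomial Q) (Y : Derivation k P P) (hY : ∀ G, T G = 0 → T (Y G) = 0) {l : P}
    (hl : T l = Polynomial.X) (dv : ∀ G, (T G).coeff 0 = 0 → ∃ G', T (G - l * G') = 0) {G a : P}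
    (G0 : T G ≠ 0) (hG : T (3 * l * Y G - G * a) = 0) :
    ∃ i : ℕ, (i = 0 → (T G).coeff 0 ≠ 0) ∧ (T (3 * i * Y l - a)).coeff 0 = 0 := by
  induction hn : (T G).natDegree using Nat.strong_induction_on generalizing G a with | _ n ih =>
  by_cases h0 : (T G).coeff 0 = 0
  · obtain ⟨G', h1⟩ := dv G h0
    have h2 := hY _ h1
    simp only [map_sub, map_mul, Derivation.leibniz, smul_eq_mul, map_add, hl, sub_eq_zero,
      map_ofNat] at h1 h2 hG
    have g0 : T G' ≠ 0 := right_ne_zero_of_mul (h1 ▸ G0)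
    obtain ⟨i, -, h3⟩ := ih (T G').natDegree (by
      rw [← hn, h1, Polynomial.natDegree_X_mul g0]; omega) (a := a - 3 * Y l) g0
      (mul_left_cancel₀ Polynomial.X_ne_zero (by
        simp only [map_sub, map_mul, hl, map_ofNat]
        rw [h1, h2] at hG
        linear_combination hG)) rfl
    exact ⟨i + 1, by simp, by rw [← h3]; congr 2; push_cast; ring⟩
  · refine ⟨0, fun _ => h0, ?_⟩
    have := congrArg (fun p => Polynomial.coeff p 0) hG
    simpa [hl, h0, Polynomial.mul_coeff_zero] using this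

lemma lead {A : Type} [CommRing A] [Algebra k A] [IsDomain A] {D : Derivation k A A} {g : A}
    (g0 : g ≠ 0) (r : ℕ) : ∀ {s : ℕ → A} {E : A}, Sq D g s → s 0 = g ^ (2 * r) * E →
      ∃ c : ℤ, c ≠ 0 ∧ g ∣ s r - c * (D g ^ r * E) := by
  induction r with
  | zero => exact fun _ e => ⟨1, one_ne_zero, by simp [e]⟩
  | succ r ih =>
    intro s E h e
    obtain ⟨c, c0, y, hy⟩ := ih h.tail (h.step g0 (m := 2 * r) e)
    refine ⟨-c * (2 * r + 2), mul_ne_zero (neg_ne_zero.2 c0) (by positivity),
      y - c * D g ^ r * D E, ?_⟩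
    push_cast at hy ⊢
    linear_combination hy

lemma der_pow {A : Type} [CommRing A] [Algebra k A] (D : Derivation k A A) (a : A) (r : ℕ) :
    a * D (a ^ r) = r * a ^ r * D a := by
  rcases r with _ | r
  · simp
  · rw [D.leibniz_pow]; simp; ring

omit [DecidableEq ι] in
lemma mkD_eq (d : ι → Derivation k K K) (v : ι → MvPolynomial ι K) (a : MvPolynomial ι K) :
    mkD d X v a = mkD d X 0 a + ∑ i, pderiv i a * v i := by
  classical
  refine der_ext (RingHom.id _) _ (fun a => mkD d X 0 a + ∑ i, pderiv i a * v i) (by simp)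
    (fun a b => ?_) (by simp) (fun a b => ?_) (by simp [mkD_C']) (fun i => ?_) a
  · simp only [map_add, add_mul, Finset.sum_add_distrib]; ring
  · simp only [Derivation.leibniz, smul_eq_mul, add_mul, Finset.sum_add_distrib, mul_assoc,
      ← Finset.mul_sum, RingHom.id_apply]; ring
  · simp [pderiv_X, Pi.single_apply]

lemma even_dvd [CharZero K] {q w : ι → K} {e : ι} {d : ι → Derivation k K K} (G : Gr q e w d)
    {E : MvPolynomial ι K} (h : rf w E = E) : lin w ∣ ∑ i, pderiv i E * C (w i) := by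
  have h1 := chain (mkDerivation K fun i => (C (w i) : MvPolynomial ι K))
    (fun i => X i - C (2 * w i / ∑ j, w j ^ 2) * lin w) E
  have h2 := chain (mkDerivation K fun i => (C (w i) : MvPolynomial ι K)) X E
  have h3 : ∀ i, (mkDerivation K fun i => (C (w i) : MvPolynomial ι K))
      (X i - C (2 * w i / ∑ j, w j ^ 2) * lin w) = -C (w i) := fun i => by
    have := G.nw
    simp only [lin, map_sub, Derivation.leibniz, map_sum, mkDerivation_X, smul_eq_mul,
      derivation_C, mul_zero, add_zero, ← sq, ← map_pow]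
    rw [← map_sum, ← map_mul, ← map_sub, ← map_neg, div_mul_cancel₀ _ this]
    congr 1
    ring
  simp only [aeval_X_left_apply, mkDerivation_X] at h2
  rw [← rf, h, h2] at h1
  simp only [h3] at h1
  have h4 := Gr.rf_sub (w := w) (∑ i, pderiv i E * C (w i))
  refine dvd_of_nat (n := 2) (by omega) (dvd_neg.1 ?_)
  convert h4 using 1
  have : ∀ a, rf w (C a) = C a := fun a => by simp [rf]
  simp only [map_sum, map_mul, this, mul_neg, Finset.sum_neg_distrib] at h1 ⊢
  push_cast
  linear_combination -h1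

variable [Algebra k L] [Algebra L K] [IsScalarTower k L K]

namespace R1

variable {q : ι → K} {e o : ι} {d : ι → Derivation k K K} {δ : Derivation k L L} {W : ι → L}
  {H : L} {lam : K} (h : R1 q e d δ W H lam o)
include h

lemma geo_C (a : L) : C lam * geo (fun i => algebraMap L K (W i)) d (algebraMap L _ a) =
    dot (fun i => δ (W i)) X * algebraMap L _ (δ a) := by
  rw [MvPolynomial.algebraMap_apply, geo, mkD_C']
  simp only [lin, dot, Finset.mul_sum, Finset.sum_mul, ← mul_assoc, ← map_mul, h.dl]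
  exact Finset.sum_congr rfl fun i _ => by simp only [map_mul, MvPolynomial.algebraMap_apply]; ring

lemma geo_X (i : ι) : C lam * geo (fun i => algebraMap L K (W i)) d (X i) =
    -(dot (fun i => δ (W i)) X ^ 2 * algebraMap L _ (∑ j, W j ^ 2)⁻¹) * algebraMap L _ (W i) := by
  rw [geo, mkD_X, ← h.lam_hq]
  simp only [div_eq_mul_inv, map_mul, MvPolynomial.algebraMap_apply, map_inv₀, map_sum, map_pow]
  ring

lemma geo_lam : C lam * geo (fun i => algebraMap L K (W i)) d (C lam) =
    dot (fun i => δ (W i)) X * C (algebraMap L K (δ (δ (δ H))) - dot (fun i => δ (δ (δ (W i)))) q)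
      - C lam * dot (fun i => δ (δ (W i))) X := by
  have : ∀ j, lam * d j lam = algebraMap L K (δ (W j)) * (algebraMap L K (δ (δ (δ H))) -
      dot (fun i => δ (δ (δ (W i)))) q) - lam * algebraMap L K (δ (δ (W j))) := fun j => by
    have h1 := h.d_dot (fun i => δ (δ (W i))) j
    have h2 := congrArg (fun a => lam * d j a) h.h2
    simp only [h.me, map_zero, zero_mul, sub_zero, map_sub, mul_sub, h.dl, map_mul] at h1 h2
    rw [h2, h1]
    ring
  rw [geo, mkD_C', ← lin_mul, ← lin_dot, ← lin_dot, mul_comm (lin _), ← lin_mul, ← lin_mul,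
    eq_sub_iff_add_eq, ← lin_add]
  congr 1
  ext j
  rw [this]
  ring

/-- The transport equation of the leading coefficient. -/
lemma ode [CharZero L] {F : MvPolynomial (ι ⊕ ι) k} (hF : Lin F) (F0 : pen q F ≠ 0)
    (hr : rf (fun i => algebraMap L K (W i)) (pen q F) = pen q F) : ∃ (r : ℕ) (a : L),
      (r = 0 → ¬ (lin fun i => algebraMap L K (W i)) ∣ pen q F) ∧
      ¬ (lin fun i => algebraMap L K (W i)) ∣ pen q ((pderiv (Sum.inl e))^[r] F) ∧
      (lin fun i => algebraMap L K (W i)) ∣ C lam * 3 * (C lam *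
        geo (fun i => algebraMap L K (W i)) d (pen q ((pderiv (Sum.inl e))^[r] F))) -
        pen q ((pderiv (Sum.inl e))^[r] F) * ((r : MvPolynomial ι K) * (C lam * (3 * dot (fun i => δ (δ (W i))) X -
          algebraMap L _ a * dot (fun i => δ (W i)) X) - dot (fun i => δ (W i)) X *
          C (algebraMap L K (δ (δ (δ H))) - dot (fun i => δ (δ (δ (W i)))) q))) := by
  have : CharZero K := charZero_of_injective_algebraMap (algebraMap L K).injective
  have G := h.gr
  have e1 := h.lam_hq
  have e2 := h.geo_lam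
  have e0 := h.geo_g
  have nd := h.not_dvd
  have gC := h.geo_C
  have gX := h.geo_X
  set w : ι → K := fun i => algebraMap L K (W i) with hw
  have P := G.g_prime
  have nh : ¬ lin w ∣ hq w d := fun e => nd (P.dvd_of_dvd_pow (e1 ▸ e.mul_left _))
  obtain ⟨m, E, hE, eq⟩ := WfDvdMonoid.max_power_factor F0 P.irreducible
  obtain ⟨r, rfl⟩ := (par P (by rwa [Gr.xe_g]) m (G.sq hF) eq hE).two_dvd
  have z3 := laz P.ne_zero r (G.sq hF) eq
  obtain ⟨c, c0, Z, hZ⟩ := lead P.ne_zero r (G.sq hF) eq
  rw [Gr.xe_g] at z3 hZ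
  obtain ⟨Z3, z4⟩ := (P.dvd_or_dvd z3).resolve_left fun e => nh (P.dvd_of_dvd_pow e)
  obtain ⟨Z2, z2⟩ := even_dvd G (E := E) (by
    rw [eq, map_mul, map_pow, G.rf_g, (even_two_mul r).neg_pow] at hr
    exact mul_left_cancel₀ (pow_ne_zero _ P.ne_zero) hr)
  have gE : ∀ a, geo w d a = mkD d X 0 a - C (∑ j, w j ^ 2)⁻¹ * hq w d *
      ∑ i, pderiv i a * C (w i) := fun a => by
    rw [geo, mkD_eq, Finset.mul_sum, sub_eq_add_neg, ← Finset.sum_neg_distrib]
    exact congrArg _ (Finset.sum_congr rfl fun i _ => by rw [div_eq_mul_inv, map_mul]; ring)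
  obtain ⟨ω, hω⟩ : ∃ ω : L, ω = (∑ j, W j ^ 2)⁻¹ * ∑ i, δ (W i) * W i := ⟨_, rfl⟩
  have e3 : C lam * geo w d (dot (fun i => δ (W i)) X) = dot (fun i => δ (W i)) X *
      dot (fun i => δ (δ (W i))) X - dot (fun i => δ (W i)) X ^ 2 * algebraMap L _ ω := by
    generalize hM : dot (fun i => δ (W i)) (X : ι → MvPolynomial ι K) = M at gC gX
    nth_rw 1 [← hM]
    simp only [dot, map_sum, Derivation.leibniz, smul_eq_mul, mul_add, Finset.mul_sum,
      mul_left_comm (C lam), gC, gX, hω, map_mul, ← Finset.sum_sub_distrib]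
    exact Finset.sum_congr rfl fun i _ => by ring
  have e4 : geo w d (dot (fun i => δ (W i)) X) = mkD d X 0 (dot (fun i => δ (W i)) X) -
      hq w d * algebraMap L _ ω := by
    rw [gE, ← lin_dot]
    simp only [pderiv_lin, hω, hw, MvPolynomial.algebraMap_apply, map_mul, map_sum, map_inv₀,
      map_pow]
    ring
  have e5 := congrArg (geo w d) e1
  have e6 := congrArg (mkD d X 0) e1
  have e7 : mkD d X 0 (C lam) = geo w d (C lam) := by rw [geo, mkD_C', mkD_C']
  have e8 := der_pow (geo w d) (hq w d) r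
  have e9 := gE E
  have e10 := congrArg (geo w d) hZ
  simp only [Derivation.leibniz, smul_eq_mul, sq, e7, map_sub, e0, Derivation.map_intCast,
    mul_zero, add_zero] at e5 e6 e10
  refine ⟨r, 6 * ω, fun r0 => by simpa [eq, r0] using hE, fun e => ?_, ?_⟩
  · have : lin w ∣ (c : MvPolynomial ι K) * (hq w d ^ r * E) := (dvd_sub_right e).1 ⟨Z, hZ⟩
    rcases P.dvd_or_dvd this with e | e
    · exact P.not_isUnit (isUnit_of_dvd_unit e (by
        simpa using (Int.cast_ne_zero.2 c0 : (c : K) ≠ 0).isUnit.map (C : K →+* MvPolynomial ι K)))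
    · exact (P.dvd_or_dvd e).elim (fun e => nh (P.dvd_of_dvd_pow e)) hE
  · refine (P.dvd_or_dvd (a := dot (fun i => δ (W i)) X ^ 2) ?_).resolve_left
      fun e => nd (P.dvd_of_dvd_pow e)
    rw [z2] at e9
    simp only [map_mul, map_ofNat]
    generalize dot (fun i => δ (W i)) (X : ι → MvPolynomial ι K) = M at *
    generalize pen q ((pderiv (Sum.inl e))^[r] F) = s at *
    generalize dot (fun i => δ (δ (W i))) (X : ι → MvPolynomial ι K) = N at *
    generalize algebraMap L (MvPolynomial ι K) ω = o at *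
    generalize (C (algebraMap L K (δ (δ (δ H))) - dot (fun i => δ (δ (δ (W i)))) q) :
      MvPolynomial ι K) = τ at *
    generalize (C lam : MvPolynomial ι K) = Λ at *
    generalize hq w d = g at *
    generalize g ^ r = gr at *
    generalize (C (∑ j, w j ^ 2)⁻¹ : MvPolynomial ι K) = n at *
    have hA : Λ ^ 3 * (3 * geo w d g - 2 * mkD d X 0 g) =
        M ^ 2 * (Λ * (3 * N - 6 * o * M) - M * τ) := by
      linear_combination 3 * Λ ^ 2 * e5 - 2 * Λ ^ 2 * e6 + 4 * M * Λ ^ 2 * e4 + 2 * M * Λ * e3 -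
        (4 * M * Λ * o + Λ * geo w d Λ) * e1 - M ^ 2 * e2
    refine ⟨Λ ^ 3 * (c * gr * Z3 - 3 * c * gr * n * g ^ 2 * Z2 + 3 * g * geo w d Z) -
      Z * r * M ^ 2 * (Λ * (3 * N - 6 * o * M) - M * τ), ?_⟩
    linear_combination (-3 * Λ ^ 2 * geo w d s) * e1 + 3 * Λ ^ 3 * g * e10 +
      3 * Λ ^ 3 * c * E * e8 + 3 * Λ ^ 3 * c * gr * g * e9 + Λ ^ 3 * c * gr * z4 +
      c * gr * E * r * hA - r * M ^ 2 * (Λ * (3 * N - 6 * o * M) - M * τ) * hZ

/-- An invariant that vanishes on the lines through the edge forces a stationary edge. -/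
theorem edge [CharZero L] {F : MvPolynomial (ι ⊕ ι) k} (hF : Lin F) (F0 : pen q F ≠ 0)
    (hr : rf (fun i => algebraMap L K (W i)) (pen q F) = pen q F) {y : ι → L}
    (y0 : ∑ i, W i * y i = 0) (y1 : ∑ i, δ (W i) * y i = 0) (y2 : ∑ i, δ (δ (W i)) * y i = -1)
    (hp : (lin fun i => algebraMap L K (W i)) ∣ pen q F ∨ (lin fun i => algebraMap L K (W i)) ∣
      pen (fun i => q i - lam * algebraMap L K (y i)) F) :
    algebraMap L K (δ (δ (δ H))) =
      dot (fun i => δ (δ (δ (W i)))) fun i => q i - lam * algebraMap L K (y i) := by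
  have : CharZero K := charZero_of_injective_algebraMap (algebraMap L K).injective
  obtain ⟨r, a, r0, r1, r2⟩ := h.ode hF F0 hr
  have G := h.gr
  have e0 := h.eta_dot
  have e1 := h.eta_g
  have g0 := h.geo_g
  set w : ι → K := fun i => algebraMap L K (W i) with hw
  obtain ⟨p, hp'⟩ : ∃ p : ι → K, p = fun i => q i - lam * algebraMap L K (y i) := ⟨_, rfl⟩
  rw [← hp'] at hp ⊢
  obtain ⟨x, hx⟩ : ∃ x : ι → MvPolynomial (ι ⊕ ι) L, x = fun i => X (Sum.inl i) := ⟨_, rfl⟩
  obtain ⟨u, hu⟩ : ∃ u : ι → MvPolynomial (ι ⊕ ι) L, u = fun i => X (Sum.inr i) := ⟨_, rfl⟩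
  obtain ⟨l, hl⟩ : ∃ l, l = algebraMap L _ (δ (δ H)) - dot (fun i => δ (δ (W i))) x := ⟨_, rfl⟩
  obtain ⟨Y, Y1, Y2⟩ := exists_der (k := k) (K := L) (ι := ι ⊕ ι)
    { toFun := fun a => dot (fun i => δ (W i)) u * C (δ a)
      map_zero' := by simp
      map_add' := fun a b => by simp [mul_add] }
    (fun a b => by simp; ring) (fun c => by simp)
    (Sum.elim (fun i => l * (u i - if i = e then dot W u else 0)) fun i =>
      -(dot (fun i => δ (W i)) u ^ 2 * algebraMap L _ (∑ j, W j ^ 2)⁻¹) * algebraMap L _ (W i))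
  obtain ⟨φ, hφ⟩ : ∃ φ : MvPolynomial (ι ⊕ ι) L →ₐ[L] MvPolynomial ι K,
    φ = aeval (Sum.elim (fun i => C (q i)) X) := ⟨_, rfl⟩
  have px : ∀ a : ι → L, φ (dot a x) = C (dot a q) := fun a => by simp [hφ, hx, dot]
  have pu : ∀ a : ι → L, φ (dot a u) = dot a X := fun a => by simp [hφ, hu, dot]
  have pl : φ l = C lam := by rw [hl, map_sub, px, h.h2, φ.commutes, map_sub]; rfl
  have pY : ∀ G, φ (Y G) = C lam * geo w d (φ G) := der_ext φ.toRingHom _ _ (by simp)
    (by simp [mul_add]) (by simp) (fun a b => by simp; ring) (fun a => by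
      rw [Y1, show φ (C a) = _ from φ.commutes a, h.geo_C, ← pu, ← φ.commutes, ← map_mul]
      rfl) (by
      rintro (i | i)
      · simp only [Y2, Sum.elim_inl, map_mul, pl, map_sub, apply_ite φ, pu, map_zero]
        simp [hφ, hu, geo, mkD_C', G.lin_dq, hw, lin_dot]
      · simp only [Y2, Sum.elim_inr, map_mul, map_neg, map_pow, pu, AlgHom.commutes, ← h.geo_X]
        simp [hφ, hw])
  let j : K →ₐ[L] Polynomial (MvPolynomial ι K) := IsScalarTower.toAlgHom L K _
  obtain ⟨z, hz⟩ : ∃ z : ι → Polynomial (MvPolynomial ι K),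
    z = fun i => j (p i) + Polynomial.X * algebraMap L _ (y i) := ⟨_, rfl⟩
  have zd : ∀ a : ι → L, dot a z = j (dot a q) + (Polynomial.X - j lam) *
      algebraMap L _ (∑ i, a i * y i) := fun a => by
    simp only [hz, hp', dot_add, dot_mul, dot_alg, map_sub, dot_sub, map_mul, AlgHom.commutes,
      ← map_dot]
    ring
  obtain ⟨T, hT⟩ : ∃ T : MvPolynomial (ι ⊕ ι) L →ₐ[L] Polynomial (MvPolynomial ι K),
    T = aeval (Sum.elim z fun i => Polynomial.C (eta w e (X i))) := ⟨_, rfl⟩
  have T1 : ∀ G, T G = 0 → lin w ∣ φ G := fun G hG => eta_dvd (e := e) _ (by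
    have := congrArg ((Polynomial.aeval (C lam : MvPolynomial ι K) :
      _ →ₐ[MvPolynomial ι K] _).restrictScalars L) hG
    rw [hT, comp_aeval_apply, map_zero] at this
    rw [hφ, ← AlgHom.restrictScalars_apply L, comp_aeval_apply, ← this]
    refine congrArg (aeval · G) (funext ?_)
    rintro (i | i) <;> simp [hz, hp', j, mul_comm (C lam)])
  have T2 : ∀ G, lin w ∣ φ G → T G = 0 := fun G ⟨Z, hG⟩ => by
    have := h.sp (G := aeval (Sum.elim x fun i => u i - if i = e then dot W u else 0) G) (by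
      have := congrArg ((eta w e).restrictScalars L) hG
      rw [map_mul, AlgHom.restrictScalars_apply L _ (lin w), e1, zero_mul, hφ,
        comp_aeval_apply] at this
      rw [← hφ, comp_aeval_apply, ← this]
      refine congrArg (aeval · G) (funext ?_)
      rintro (i | i)
      · simp [hφ, hx]
      · simp only [Sum.elim_inr, map_sub, apply_ite φ, pu]
        simp [hφ, hu, eta, hw, lin_dot]) (x := z) (by simp [zd, y0, h.h0])
      (by simp [zd, y1, h.h1]) fun i => Polynomial.C (X i)
    rw [comp_aeval_apply] at this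
    rw [hT, ← this]
    refine congrArg (aeval · G) (funext ?_)
    rintro (i | i)
    · simp [hx]
    · by_cases hi : i = e <;> simp [hu, hi, eta, dot, lin, hw]
  have Tx : ∀ a : ι → L, T (dot a x) = dot a z := fun a => by simp [hT, hx, map_dot]
  have Tl : T l = Polynomial.X := by
    rw [hl, map_sub, Tx, zd, y2, h.h2]
    simp
    ring
  have T0 : ∀ G, (T G).coeff 0 = aeval (Sum.elim (fun i => C (p i)) fun i => eta w e (X i)) G :=
    fun G => by
      have := comp_aeval_apply (Sum.elim z fun i => Polynomial.C (eta w e (X i)))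
        ((Polynomial.aeval (0 : MvPolynomial ι K) : _ →ₐ[MvPolynomial ι K] _).restrictScalars L) G
      rw [hT, Polynomial.coeff_zero_eq_aeval_zero]
      refine this.trans (congrArg (aeval · G) (funext ?_))
      rintro (i | i) <;> simp [hz, j]
  have pF : ∀ F : MvPolynomial (ι ⊕ ι) k, φ (ev x u F) = pen q F := fun F => by
    rw [av_ev]; simp [hφ, hx, hu, pen]
  obtain ⟨i, i0, i1⟩ := ord T.toRingHom Y (fun G hG => T2 _ (by
      obtain ⟨Z, hZ⟩ := T1 G hG
      rw [pY, hZ, Derivation.leibniz, g0, smul_zero, add_zero]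
      exact (dvd_mul_right _ _).mul_left _)) Tl (fun G hG => by
      obtain ⟨Z, hZ⟩ := dvd_sub_aeval (g := l) (x := Sum.elim
        (fun i => x i - l * algebraMap L _ (y i)) u) (by rintro (i | i) <;> simp [hx, hu]) G
      refine ⟨-Z, ?_⟩
      change T _ = 0
      rw [mul_neg, sub_neg_eq_add, ← hZ, add_sub_cancel, comp_aeval_apply, ← Polynomial.C_0,
        ← show _ = (0 : MvPolynomial ι K) from (T0 G).symm.trans hG]
      refine Eq.trans (congrArg (aeval · G) (funext ?_)) (comp_aeval_apply _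
        ((Polynomial.CAlgHom (R := MvPolynomial ι K)).restrictScalars L) G).symm
      rintro (i | i)
      · simp only [Sum.elim_inl, map_sub, map_mul, Tl]
        simp [hT, hx, hz, j]
      · simp [hT, hu])
    (G := ev x u ((pderiv (Sum.inl e))^[r] F)) (a := r * (l * (3 * dot (fun i => δ (δ (W i))) u -
      algebraMap L _ a * dot (fun i => δ (W i)) u) - dot (fun i => δ (W i)) u *
      (algebraMap L _ (δ (δ (δ H))) - dot (fun i => δ (δ (δ (W i)))) x)))
    (fun e => r1 (pF _ ▸ T1 _ e)) (T2 _ (by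
      convert r2 using 1
      simp only [map_sub, map_mul, pY, pF, pl, pu, px, map_ofNat, map_natCast, AlgHom.commutes]
      rw [MvPolynomial.algebraMap_apply (δ _)]
      ring))
  have Yl : Y l = dot (fun i => δ (W i)) u * (algebraMap L _ (δ (δ (δ H))) -
      dot (fun i => δ (δ (δ (W i)))) x) - l * dot (fun i => δ (δ (W i))) u := by
    have : Y (dot (fun i => δ (δ (W i))) x) = dot (fun i => δ (δ (W i))) (fun i => Y (x i)) +
        dot (fun i => δ (W i)) u * dot (fun i => δ (δ (δ (W i)))) x := by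
      generalize dot (fun i => δ (W i)) u = M at Y1
      simp [dot, Y1, Finset.sum_add_distrib, Finset.mul_sum, mul_comm, mul_left_comm, add_comm]
    nth_rw 1 [hl]
    rw [map_sub, this, MvPolynomial.algebraMap_eq, Y1]
    simp only [hx, Y2, Sum.elim_inl, dot_mul, dot_sub, dot_ite, h.me]
    simp
    ring
  have ir : ((3 * i + r : ℕ) : MvPolynomial ι K) ≠ 0 := Nat.cast_ne_zero.2 fun e0 => by
    obtain rfl : r = 0 := by omega
    refine i0 (by omega) ((T0 _).trans ?_)
    obtain ⟨Z, hZ⟩ := hp.resolve_left (r0 rfl)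
    have := congrArg ((eta w e).restrictScalars L) hZ
    rw [map_mul, AlgHom.restrictScalars_apply L _ (lin w), e1, zero_mul, pen, av_ev] at this
    rw [av_ev]
    simpa [hx, hu, eta_C] using this
  have M0 : dot (fun i => δ (W i)) (X : ι → MvPolynomial ι K) ≠ 0 := fun e => h.not_dvd (by simp [e])
  have l0 := T0 l
  rw [Tl, Polynomial.coeff_X_zero] at l0
  have hM : dot (fun i => δ (W i)) (fun i => eta w e (X i)) = dot (fun i => δ (W i)) X := by
    simpa [h.me] using (map_dot ((eta w e).restrictScalars L) _ X).symm.trans (e0 fun i => δ (W i))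
  have i2 := (T0 _).symm.trans i1
  simp only [Yl, map_sub, map_mul, ← l0, map_dot, map_ofNat, map_natCast, AlgHom.commutes] at i2
  simp only [hx, hu, aeval_X, Sum.elim_inl, Sum.elim_inr, hM] at i2
  refine C_injective ι K (sub_eq_zero.1 (mul_left_cancel₀ (mul_ne_zero ir M0) ?_))
  rw [show C (dot (fun i => δ (δ (δ (W i)))) p) =
    dot (fun i => δ (δ (δ (W i)))) fun i => (C (p i) : MvPolynomial ι K) by simp [dot]]
  rw [MvPolynomial.algebraMap_apply] at i2
  push_cast
  linear_combination i2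

end R1

end Pool.Agent.MP_249f74_an.H44
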