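import Pool.Agent.MP_249f74_an.H44.Set

/-!
Rolling the tangent hyperplane: the factor of a one step relation is constant on the rulings.
-/

open MvPolynomial

namespace Pool.Agent.MP_249f74_an.H44

open H65

variable {k L K ι : Type} [Field k] [Field L] [Field K] [Algebra k K] [Fintype ι] [DecidableEq ι]

/-- The reflection of a vector. -/
def rv {B : Type} [CommRing B] [Algebra L B] (W : ι → L) (u : ι → B) (i : ι) : B :=
  u i - algebraMap L B (2 * W i / ∑ j, W j ^ 2) * dot W u

omit [DecidableEq ι] in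
lemma map_rv {B B' : Type} [CommRing B] [Algebra L B] [CommRing B'] [Algebra L B']
    (φ : B →ₐ[L] B') (W : ι → L) (u : ι → B) (i : ι) :
    φ (rv W u i) = rv W (fun i => φ (u i)) i := by simp [rv, map_dot]

omit [DecidableEq ι] in
lemma sum_dot {B : Type} [CommRing B] [Algebra L B] (W : ι → L) (f : ι → B) (c : B) :
    ∑ i, f i * (c * algebraMap L B (W i)) = c * dot W f := by
  rw [dot, Finset.mul_sum]
  exact Finset.sum_congr rfl fun i _ => by ring

omit [Fintype ι] in
lemma ev_congr {B : Type} [CommRing B] [Algebra k B] {x u x' u' : ι → B} (hx : ∀ i, x i = x' i)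
    (hu : ∀ i, u i = u' i) (F : MvPolynomial (ι ⊕ ι) k) : ev x u F = ev x' u' F := by
  rw [funext hx, funext hu]

lemma dev {B : Type} [CommRing B] [Algebra k B] (x a u b : ι → B) (F : MvPolynomial (ι ⊕ ι) k) :
    (Polynomial.derivative (ev (fun i => Polynomial.C (x i) + Polynomial.X * Polynomial.C (a i))
      (fun i => Polynomial.C (u i) + Polynomial.X * Polynomial.C (b i)) F)).eval 0 =
      ∑ i, ev x u (pderiv (Sum.inl i) F) * a i + ∑ i, ev x u (pderiv (Sum.inr i) F) * b i := by
  have h := map_ev ((Polynomial.aeval 0 : Polynomial B →ₐ[B] B).restrictScalars k)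
    (fun i => Polynomial.C (x i) + Polynomial.X * Polynomial.C (a i))
    (fun i => Polynomial.C (u i) + Polynomial.X * Polynomial.C (b i))
  simp only [AlgHom.restrictScalars_apply, Polynomial.coe_aeval_eq_eval] at h
  rw [← der'_apply (k := k), chain_ev]
  simp only [der'_apply, Polynomial.eval_finsetSum, Polynomial.eval_add, Polynomial.eval_mul, h]
  simp

lemma dvd_der {A : Type} [CommRing A] [IsDomain A] [UniqueFactorizationMonoid A] [Algebra ℚ A]
    [Algebra k A] {D : Derivation k A A} {G : A} (G0 : G ≠ 0) (hG : D G = 0) (a : A) :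
    a ∣ G → a ∣ D a := by
  induction a using UniqueFactorizationMonoid.induction_on_prime with
  | h₁ => exact fun h => absurd (zero_dvd_iff.1 h) G0
  | h₂ a ha => exact fun _ => ha.dvd
  | h₃ a p _ hp ih =>
    intro h
    rw [D.leibniz, smul_eq_mul, smul_eq_mul, mul_comm a]
    exact (mul_dvd_mul_left p (ih (dvd_of_mul_left_dvd h))).add
      (mul_dvd_mul_right (prime_inv hp G0 (dvd_of_mul_right_dvd h) (by simp [hG])) a)

/-- Projection of the direction to the tangent hyperplane. -/
noncomputable def eta (w : ι → K) (e : ι) : MvPolynomial ι K →ₐ[K] MvPolynomial ι K :=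
  aeval fun i => X i - if i = e then lin w else 0

lemma eta_C (w : ι → K) (e : ι) (a : K) : eta w e (C a) = C a := by simp [eta]

lemma eta_dvd {w : ι → K} {e : ι} (a : MvPolynomial ι K) (ha : eta w e a = 0) : lin w ∣ a := by
  have := dvd_sub_aeval (g := lin w) (x := fun i => X i - if i = e then lin w else 0)
    (fun i => by split_ifs <;> simp) a
  rwa [← eta, ha, zero_sub, dvd_neg] at this

variable [Algebra k L] [Algebra L K] [IsScalarTower k L K]

omit [Fintype ι] in
lemma av_ev {B B' : Type} [CommRing B] [Algebra L B] [CommRing B'] [Algebra L B'] [Algebra k B]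
    [Algebra k B'] [IsScalarTower k L B] [IsScalarTower k L B'] (φ : B →ₐ[L] B') (x u : ι → B)
    (F : MvPolynomial (ι ⊕ ι) k) :
    φ (ev x u F) = ev (fun i => φ (x i)) (fun i => φ (u i)) F := map_ev (φ.restrictScalars k) x u F

omit [DecidableEq ι] in
lemma lin_dot (a : ι → L) : lin (fun i => algebraMap L K (a i)) = dot a X := rfl

lemma rf_pen (q : ι → K) (W : ι → L) (F : MvPolynomial (ι ⊕ ι) k) :
    rf (fun i => algebraMap L K (W i)) (pen q F) = ev (fun i => C (q i)) (rv W X) F := by
  rw [pen, ← AlgHom.restrictScalars_apply L, av_ev]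
  refine ev_congr (fun i => ?_) (fun i => ?_) F <;> simp [rf, rv, lin_dot, map_ofNat]

namespace R1

variable {q : ι → K} {e o : ι} {d : ι → Derivation k K K} {δ : Derivation k L L} {W : ι → L}
  {H : L} {lam : K} (h : R1 q e d δ W H lam o)
include h

lemma nw : ∑ i, W i ^ 2 ≠ 0 := fun e => h.gr.nw (by simpa using congrArg (algebraMap L K) e)

/-- The relation on the whole ruling. -/
lemma rel [CharZero L] {F0 F1 : MvPolynomial (ι ⊕ ι) k} {c : L}
    (hr : rf (fun i => algebraMap L K (W i)) (pen q F1) = C (algebraMap L K c) * pen q F0)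
    {B : Type} [CommRing B] [Algebra K B] [Algebra L B] [IsScalarTower L K B] [Algebra k B]
    [IsScalarTower k L B] {x : ι → B} (hx : dot W x = algebraMap L B H)
    (hm : dot (fun i => δ (W i)) x = algebraMap L B (δ H)) (u : ι → B) :
    ev x (rv W u) F1 = algebraMap L B c * ev x u F0 := by
  have := h.sp (G := ev (fun i => X (Sum.inl i)) (rv W fun i => X (Sum.inr i)) F1 -
    C c * ev (fun i => X (Sum.inl i)) (fun i => X (Sum.inr i)) F0) (by
      rw [rf_pen] at hr
      simpa [av_ev, map_rv, sub_eq_zero, pen] using hr) hx hm u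
  simpa [av_ev, map_rv, sub_eq_zero] using this

/-- The rotation about the ruling kills an invariant on the lines of the tangent hyperplane. -/
lemma rot [CharZero L] {F : MvPolynomial (ι ⊕ ι) k} (hF : Lin F)
    (hr : rf (fun i => algebraMap L K (W i)) (pen q F) = pen q F)
    {B : Type} [Field B] [Algebra K B] [Algebra L B] [IsScalarTower L K B] [Algebra k B]
    [IsScalarTower k L B] {x u : ι → B} (hx : dot W x = algebraMap L B H) (hu : dot W u = 0)
    (hm : dot (fun i => δ (W i)) u ≠ 0) :
    (dot (fun i => δ (W i)) x - algebraMap L B (δ H)) *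
      dot W (fun i => ev x u (pderiv (Sum.inl i) F)) + dot (fun i => δ (W i)) u *
      dot W (fun i => ev x u (pderiv (Sum.inr i) F)) = 0 := by
  have : CharZero k := (algebraMap k L).charZero
  have : CharZero B := charZero_of_injective_algebraMap (algebraMap L B).injective
  obtain ⟨M, hM⟩ : ∃ M, dot (fun i => δ (W i)) u = M := ⟨_, rfl⟩
  obtain ⟨N, hN⟩ : ∃ N, dot (fun i => δ (W i)) x - algebraMap L B (δ H) = N := ⟨_, rfl⟩
  rw [hM] at hm
  let ι0 : B →ₐ[L] Polynomial B := IsScalarTower.toAlgHom L B _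
  have h1 := h.rel (c := 1) (by simpa using hr) (B := Polynomial B)
    (x := fun i => ι0 (x i + -N / M * u i))
    (by rw [← map_dot, dot_add, dot_mul, hx, hu]; simp)
    (by rw [← map_dot, dot_add, dot_mul, hM, ← hN]; field_simp; simp)
    fun i => ι0 (u i) + Polynomial.X * ι0 (M * algebraMap L B (W i))
  have h2 : rv W (fun i => ι0 (u i) + Polynomial.X * ι0 (M * algebraMap L B (W i))) =
      fun i => ι0 (u i) + Polynomial.X * ι0 (-(M * algebraMap L B (W i))) := by
    ext1 i
    have := (_root_.map_ne_zero (algebraMap L B)).2 h.nw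
    rw [rv, dot_add, dot_mul, ← map_dot, ← map_dot, dot_mul, hu, dot_alg, ← ι0.commutes,
      map_zero, zero_add, mul_left_comm, ← map_mul, add_sub_assoc, ← mul_sub, ← map_sub]
    refine congrArg (fun z => ι0 (u i) + Polynomial.X * ι0 z) ?_
    simp only [← sq, map_div₀, map_mul, map_ofNat]
    field_simp
    ring
  have h3 := hF.tr (fun i => ι0 (x i) + Polynomial.X * ι0 (N * algebraMap L B (W i)))
    (fun i => ι0 (u i) + Polynomial.X * ι0 (M * algebraMap L B (W i))) (ι0 (-N / M))
  have h4 : (fun i => ι0 (x i) + Polynomial.X * ι0 (N * algebraMap L B (W i)) + ι0 (-N / M) *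
      (ι0 (u i) + Polynomial.X * ι0 (M * algebraMap L B (W i)))) =
      fun i => ι0 (x i + -N / M * u i) + Polynomial.X * ι0 0 := by
    ext1 i
    have : ι0 (-N / M) * ι0 M = -ι0 N := by rw [← map_mul, div_mul_cancel₀ _ hm, map_neg]
    simp only [map_mul, map_add, map_zero]
    linear_combination Polynomial.X * ι0 (algebraMap L B (W i)) * this
  have h5 := dev (fun i => x i + -N / M * u i) (fun _ => 0) u (fun i => M * algebraMap L B (W i)) F
  have h6 := dev (fun i => x i + -N / M * u i) (fun _ => 0) u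
    (fun i => -(M * algebraMap L B (W i))) F
  have h7 := dev x (fun i => N * algebraMap L B (W i)) u (fun i => M * algebraMap L B (W i)) F
  rw [h2, map_one, one_mul] at h1
  rw [h4] at h3
  simp only [ι0, IsScalarTower.toAlgHom_apply, Polynomial.algebraMap_eq, map_zero, mul_zero,
    add_zero, mul_neg, Finset.sum_neg_distrib, Finset.sum_const_zero, zero_add] at h1 h3 h5 h6
  rw [← h3, h5] at h7
  rw [h1, h5] at h6
  rw [hM, hN]
  simp only [sum_dot] at h6 h7
  linear_combination h6 / 2 - h7

lemma lam_hq : C lam * hq (fun i => algebraMap L K (W i)) d = dot (fun i => δ (W i)) X ^ 2 := by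
  simp only [hq, lin, dot, sq, Finset.mul_sum, Finset.sum_mul, ← mul_assoc, ← map_mul, h.dl]
  refine Finset.sum_congr rfl fun i _ => Finset.sum_congr rfl fun j _ => ?_
  simp only [map_mul, MvPolynomial.algebraMap_apply]
  ring

lemma not_dvd : ¬ lin (fun i => algebraMap L K (W i)) ∣ dot (fun i => δ (W i)) X := fun e' => by
  have := map_dvd ((aeval fun i => algebraMap L K ((if i = o then 1 else 0) -
    if i = e then W o else 0) : MvPolynomial ι K →ₐ[K] K).restrictScalars L) e'
  simp only [lin_dot, map_dot, AlgHom.restrictScalars_apply, aeval_X, dot_alg] at this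
  simp [mul_sub, h.we, h.wo] at this

omit h in
lemma eta_dot' (w : ι → K) (a : ι → L) :
    eta w e (dot a X) = dot a X - algebraMap L _ (a e) * lin w := by
  rw [← AlgHom.restrictScalars_apply L, map_dot]
  simp [eta, dot_sub, dot_ite]

lemma eta_dot (a : ι → L) : eta (fun i => algebraMap L K (W i)) e (dot a X) =
    dot a X - algebraMap L _ (a e) * lin fun i => algebraMap L K (W i) := eta_dot' _ a

lemma eta_g : eta (fun i => algebraMap L K (W i)) e (lin fun i => algebraMap L K (W i)) = 0 :=
  (h.eta_dot W).trans (by simp [h.we, lin_dot])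

omit h in
/-- The geodesic flow. -/
noncomputable def geo (w : ι → K) (d : ι → Derivation k K K) :
    Derivation k (MvPolynomial ι K) (MvPolynomial ι K) :=
  mkD d X fun i => -(C (w i / ∑ j, w j ^ 2) * hq w d)

lemma geo_g : geo (fun i => algebraMap L K (W i)) d (lin fun i => algebraMap L K (W i)) = 0 := by
  rw [geo, mkD_lin, ← hq]
  simp only [mul_neg, ← mul_assoc, ← map_mul, Finset.sum_neg_distrib, ← Finset.sum_mul, ← map_sum,
    ← mul_div_assoc, ← Finset.sum_div]
  simp only [← sq, map_sum, map_pow]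
  rw [div_self h.gr.nw, map_one, one_mul, add_neg_cancel]

lemma geo_pen {F : MvPolynomial (ι ⊕ ι) k} (hF : Lin F) :
    geo (fun i => algebraMap L K (W i)) d (pen q F) =
      -(lin fun i => algebraMap L K (W i)) * pen q (pderiv (Sum.inl e) F) -
        algebraMap L _ (∑ j, W j ^ 2)⁻¹ * hq (fun i => algebraMap L K (W i)) d *
          dot W fun i => pen q (pderiv (Sum.inr i) F) := by
  rw [pen, chain_ev, geo]
  simp only [mkD_C', mkD_X, h.gr.lin_dq, mul_sub, Finset.sum_sub_distrib, hF.ev, dot,
    Finset.mul_sum, mul_neg, Finset.sum_neg_distrib]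
  rw [sub_eq_add_neg (-_ * _)]
  refine congrArg₂ _ ?_ ?_
  · simp [mul_comm]
  · refine congrArg _ (Finset.sum_congr rfl fun i _ => ?_)
    simp only [div_eq_mul_inv, map_mul, MvPolynomial.algebraMap_apply, map_inv₀, map_sum, map_pow]
    ring

/-- The factor of the relation only depends on the tangent hyperplane. -/
theorem cL [CharZero L] {F0 F1 : MvPolynomial (ι ⊕ ι) k} (l0 : Lin F0) (l1 : Lin F1) {c : K}
    (c0 : c ≠ 0) (hr : rf (fun i => algebraMap L K (W i)) (pen q F1) = C c * pen q F0)
    (f0 : ¬ (lin fun i => algebraMap L K (W i)) ∣ pen q F0) : ∃ b : L, c = algebraMap L K b := by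
  have : CharZero K := charZero_of_injective_algebraMap (algebraMap L K).injective
  have G := h.gr
  set w : ι → K := fun i => algebraMap L K (W i) with hw
  have hr' : pen q F1 = C c * rf w (pen q F0) := by
    rw [← G.rf_rf (pen q F1), hr, map_mul, rf, aeval_C]; rfl
  have inv : rf w (pen q (F0 * F1)) = pen q (F0 * F1) := by
    rw [map_mul, map_mul, hr, hr']; ring
  obtain ⟨x, hx⟩ : ∃ x : ι → MvPolynomial (ι ⊕ ι) K, x = fun i => X (Sum.inl i) := ⟨_, rfl⟩
  obtain ⟨u, hu⟩ : ∃ u : ι → MvPolynomial (ι ⊕ ι) K, u = fun i => X (Sum.inr i) := ⟨_, rfl⟩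
  obtain ⟨D, D1, D2⟩ := exists_der (k := k) (K := K) (ι := ι ⊕ ι)
    { toFun := fun a => C (lam * d o a)
      map_zero' := by simp
      map_add' := fun a b => by simp [mul_add] }
    (fun a b => by simp; ring) (fun c => by simp)
    (Sum.elim (fun i => -(algebraMap L _ (∑ j, W j ^ 2)⁻¹ *
      (dot (fun i => δ (W i)) x - algebraMap L _ (δ H))) * algebraMap L _ (W i))
      fun i => -(algebraMap L _ (∑ j, W j ^ 2)⁻¹ * dot (fun i => δ (W i)) u) * algebraMap L _ (W i))
  have D3 : ∀ a : L, D (algebraMap L _ a) = algebraMap L _ (δ a) := fun a => by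
    rw [MvPolynomial.algebraMap_apply, D1]
    exact congrArg C (h.dd a)
  have D4 : ∀ (y : ι → MvPolynomial (ι ⊕ ι) K) (z), (∀ i, D (y i) = -(algebraMap L _
      (∑ j, W j ^ 2)⁻¹ * z) * algebraMap L _ (W i)) →
      D (dot W y) = dot (fun i => δ (W i)) y - z := fun y z hy => by
    have := dot_alg (B := MvPolynomial (ι ⊕ ι) K) W W
    have h1 : D (dot W y) = dot W (fun i => D (y i)) + dot (fun i => δ (W i)) y := by
      simp only [dot, map_sum, D.leibniz, smul_eq_mul, D3, Finset.sum_add_distrib, mul_comm (y _)]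
    simp only [h1, hy, dot_mul, this, ← sq]
    rw [neg_mul, mul_right_comm, ← map_mul, inv_mul_cancel₀ h.nw, map_one]
    ring
  obtain ⟨x', hx'⟩ : ∃ x' : ι → MvPolynomial (ι ⊕ ι) K,
    x' = fun i => x i - if i = e then dot W x - algebraMap L _ H else 0 := ⟨_, rfl⟩
  obtain ⟨u', hu'⟩ : ∃ u' : ι → MvPolynomial (ι ⊕ ι) K,
    u' = fun i => u i - if i = e then dot W u else 0 := ⟨_, rfl⟩
  have m1 : dot (fun i => δ (W i)) x' = dot (fun i => δ (W i)) x := by
    simp [hx', dot_sub, dot_ite, h.me]
  have m2 : dot (fun i => δ (W i)) u' = dot (fun i => δ (W i)) u := by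
    simp [hu', dot_sub, dot_ite, h.me]
  have D5 : ∀ F : MvPolynomial (ι ⊕ ι) k, D (ev x' u' F) = -algebraMap L _ (∑ j, W j ^ 2)⁻¹ *
      ((dot (fun i => δ (W i)) x' - algebraMap L _ (δ H)) *
        dot W (fun i => ev x' u' (pderiv (Sum.inl i) F)) + dot (fun i => δ (W i)) u' *
        dot W (fun i => ev x' u' (pderiv (Sum.inr i) F))) := fun F => by
    have h1 := D4 x _ fun i => (congrArg D (congrFun hx i)).trans (D2 _)
    have h2 := D4 u _ fun i => (congrArg D (congrFun hu i)).trans (D2 _)
    have h3 : ∀ i, D (x' i) = D (X (Sum.inl i)) := fun i => by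
      simp only [hx', map_sub, apply_ite D, h1, D3]; simp [hx]
    have h4 : ∀ i, D (u' i) = D (X (Sum.inr i)) := fun i => by
      simp only [hu', map_sub, apply_ite D, h2]; simp [hu]
    simp only [chain_ev, h3, h4, D2, Sum.elim_inl, Sum.elim_inr, m1, m2, sum_dot]
    ring
  obtain ⟨φ, hφ⟩ : ∃ φ : MvPolynomial (ι ⊕ ι) K →ₐ[L] MvPolynomial ι K,
    φ = (aeval (Sum.elim (fun i => C (q i)) X)).restrictScalars L := ⟨_, rfl⟩
  set η := eta w e with hη
  have e0 := h.eta_dot
  have e1 : η (lin w) = 0 := h.eta_g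
  have e2 := eta_dvd (w := w) (e := e)
  have e3 := eta_C w e
  rw [← hw, ← hη] at e0
  rw [← hη] at e2 e3
  have p0 : ∀ a : ι → L, φ (dot a x) = C (dot a q) := fun a => by
    simp [hφ, hx, dot]
  have p1 : ∀ i, φ (x' i) = C (q i) := fun i => by
    simp only [hx', map_sub, apply_ite φ, p0, h.h0, AlgHom.commutes]
    simp [hφ, hx]
  have p2 : ∀ a : ι → L, φ (dot a u) = dot a X := fun a => by simp [hφ, hu, dot]
  have p3 : ∀ F : MvPolynomial (ι ⊕ ι) k, φ (ev x' u' F) = η (pen q F) := fun F => by
    rw [pen, ← AlgHom.restrictScalars_apply L η, av_ev, av_ev]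
    refine ev_congr (fun i => ?_) (fun i => ?_) F
    · simp [p1, e3]
    · simp only [hu', map_sub, apply_ite φ, p2]
      simp [hφ, hη, eta, hu, hw, lin_dot]
  have n0 : η (pen q F0) ≠ 0 := fun e => f0 (e2 _ e)
  obtain ⟨Z, hZ⟩ : ∃ Z, pen q F1 = C c * pen q F0 + lin w * Z := by
    obtain ⟨Z, hZ⟩ := Gr.rf_sub (w := w) (pen q F1)
    exact ⟨-Z, by rw [← hr]; linear_combination -hZ⟩
  have n1 : η (pen q F1) = C c * η (pen q F0) := by simp [hZ, e1, e3]
  have g0 : ev x' u' F0 * ev x' u' F1 ≠ 0 := fun e => by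
    simpa [p3, n1, n0, c0] using congrArg φ e
  have g1 : D (ev x' u' F0 * ev x' u' F1) = 0 := by
    let j := IsScalarTower.toAlgHom L (MvPolynomial (ι ⊕ ι) K)
      (FractionRing (MvPolynomial (ι ⊕ ι) K))
    have hj : Function.Injective j := IsFractionRing.injective _ _
    rw [← map_mul, D5]
    refine mul_eq_zero_of_right _ (hj ?_)
    simp only [map_add, map_mul, map_sub, map_dot, av_ev, AlgHom.commutes, map_zero]
    refine h.rot (l0.mul l1) inv ?_ ?_ ?_
    · rw [← map_dot, ← j.commutes]; simp [hx', dot_sub, dot_ite, h.we]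
    · rw [← map_dot]; simp [hu', dot_sub, dot_ite, h.we]
    · rw [← map_dot, m2, map_ne_zero_iff _ hj]
      exact fun e => h.not_dvd (by simp [← p2, e])
  have key : ∀ F : MvPolynomial (ι ⊕ ι) k, Lin F → ev x' u' F ∣ D (ev x' u' F) →
      dot (fun i => δ (W i)) X * η (pen q F) ∣ C lam * η (geo w d (pen q F)) := fun F hF ⟨a, ha⟩ => by
    have h1 := congrArg φ ha
    have h2 := congrArg η h.lam_hq
    simp only [D5, map_mul, map_add, map_neg, map_sub, m1, m2, p0, p2, h.h1, AlgHom.commutes,
      map_dot φ W, p3, ← MvPolynomial.algebraMap_apply, sub_self, zero_mul, zero_add] at h1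
    simp only [map_mul, map_pow, e0, h.me, map_zero, zero_mul, sub_zero, e3] at h2
    refine ⟨φ a, ?_⟩
    rw [mul_assoc, ← h1, h.geo_pen hF, map_sub, map_mul, map_neg, e1, map_mul, map_mul,
      ← AlgHom.restrictScalars_apply L η (dot _ _), map_dot,
      ← AlgHom.restrictScalars_apply L η (algebraMap L _ _), AlgHom.commutes]
    simp only [AlgHom.restrictScalars_apply]
    linear_combination (-algebraMap L (MvPolynomial ι K) (∑ j, W j ^ 2)⁻¹ *
      dot W fun i => η (pen q (pderiv (Sum.inr i) F))) * h2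
  obtain ⟨a0, h0⟩ := key F0 l0 (dvd_der g0 g1 _ (dvd_mul_right _ _))
  obtain ⟨a1, h1⟩ := key F1 l1 (dvd_der g0 g1 _ (dvd_mul_left _ _))
  have h2 : η (lin fun j => d j c) = lin fun j => d j c := by
    simp [hη, eta, mul_sub, G.de, lin]
  rw [n1, hZ, map_add, Derivation.leibniz, Derivation.leibniz, h.geo_g, geo, mkD_C', ← geo] at h1
  simp only [smul_eq_mul, map_add, map_mul, e1, h2, e3, mul_zero, zero_mul, add_zero] at h1
  have h4 : C lam * lin (fun j => d j c) = dot (fun i => δ (W i)) X * (C c * (a1 - a0)) :=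
    mul_left_cancel₀ n0 (by linear_combination h1 - C c * h0)
  refine h.mx c fun j => ?_
  have := congrArg ((aeval fun i => algebraMap L K ((if i = j then 1 else 0) -
    if i = o then δ (W j) else 0) : MvPolynomial ι K →ₐ[K] K).restrictScalars L) h4
  simp only [map_mul, map_dot, AlgHom.restrictScalars_apply, aeval_X, dot_alg, aeval_lin] at this
  simp [mul_sub, h.wo, apply_ite (algebraMap L K), sub_eq_zero, h.l0] at this
  rw [this, mul_comm (d o c)]

end R1

end Pool.Agent.MP_249f74_an.H44
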