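import Pool.Agent.MP_249f74_an.H65.Abs

/-!
Sums of products of derivatives at the origin: an orthogonally invariant pairing.
-/

open MvPolynomial

namespace Pool.Agent.MP_249f74_an.H44

variable {σ A B : Type} [Fintype σ] [CommRing A] [CommRing B]

/-- The pairing of the derivatives of order `n` at the origin. -/
noncomputable def fis : ℕ → MvPolynomial σ A →ₗ[A] MvPolynomial σ A →ₗ[A] A
  | 0 => (LinearMap.mul A A).compl₁₂ (lcoeff A 0) (lcoeff A 0)
  | n + 1 => ∑ i, (fis n).compl₁₂ (pderiv i).toLinearMap (pderiv i).toLinearMap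

lemma fis_zero (P Q : MvPolynomial σ A) : fis 0 P Q = coeff 0 P * coeff 0 Q := rfl

lemma fis_succ (n : ℕ) (P Q : MvPolynomial σ A) :
    fis (n + 1) P Q = ∑ i, fis n (pderiv i P) (pderiv i Q) := by
  simp [fis, LinearMap.sum_apply]

lemma fis_map (φ : A →+* B) (n : ℕ) (P Q : MvPolynomial σ A) :
    fis n (map φ P) (map φ Q) = φ (fis n P Q) := by
  induction n generalizing P Q with
  | zero => simp [fis_zero, coeff_map]
  | succ n ih => simp [fis_succ, pderiv_map, ih]

lemma fis_C (n : ℕ) (c : A) (P : MvPolynomial σ A) :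
    fis n (C c * P) (C c * P) = c ^ 2 * fis n P P := by
  simp only [← smul_eq_C_mul, map_smul, LinearMap.smul_apply, smul_eq_mul]
  ring

lemma fis_sq (n : ℕ) (P : MvPolynomial σ A) : IsSumSq (fis n P P) := by
  induction n generalizing P with
  | zero => exact IsSumSq.mul_self _
  | succ n ih => rw [fis_succ]; exact IsSumSq.sum fun i _ => ih _

lemma fis_ne [IsDomain A] [CharZero A] [IsFormallyReal A] {n : ℕ} {α : σ →₀ ℕ}
    {P : MvPolynomial σ A} (hn : α.degree = n) (h : coeff α P ≠ 0) : fis n P P ≠ 0 := by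
  classical
  induction n generalizing P α with
  | zero =>
    rw [Finsupp.degree_eq_zero_iff] at hn
    subst hn
    exact mul_ne_zero h h
  | succ n ih =>
    obtain ⟨i, hi⟩ := Finsupp.ne_iff.1 (show α ≠ 0 by rintro rfl; simp at hn)
    obtain ⟨β, rfl⟩ := exists_add_of_le (Finsupp.single_le_iff.2 (Nat.one_le_iff_ne_zero.2 hi))
    rw [add_comm] at h
    rw [map_add, Finsupp.degree_single] at hn
    rw [fis_succ, ← Finset.add_sum_erase _ _ (Finset.mem_univ i)]
    refine fun e => ih (α := β) (by omega) ?_ (IsFormallyReal.eq_zero_of_add_right (fis_sq n _)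
      (IsSumSq.sum fun j _ => fis_sq n _) e)
    rw [coeff_pderiv]
    exact mul_ne_zero h (Nat.cast_add_one_ne_zero _)

/-- Degree at most `n`. -/
def Ok (n : ℕ) (P : MvPolynomial σ A) : Prop := ∀ α : σ →₀ ℕ, n < α.degree → coeff α P = 0

omit [Fintype σ] in
lemma Ok.map {n : ℕ} {P : MvPolynomial σ A} (h : Ok n P) (φ : A →+* B) : Ok n (map φ P) :=
  fun α hα => by rw [coeff_map, h α hα, map_zero]

omit [Fintype σ] in
lemma ok_deg (P : MvPolynomial σ A) : Ok P.totalDegree P := fun _ hα =>
  coeff_eq_zero_of_totalDegree_lt hα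

lemma exists_top [IsDomain A] [CharZero A] [IsFormallyReal A] {I : Type} (P : I → MvPolynomial σ A)
    (h : ∃ n, ∀ i, Ok n (P i)) {j : I} (h0 : P j ≠ 0) :
    ∃ n, (∀ i, Ok n (P i)) ∧ ∃ i, fis n (P i) (P i) ≠ 0 := by
  classical
  refine ⟨Nat.find h, Nat.find_spec h, ?_⟩
  rcases hn : Nat.find h with _ | n
  · obtain ⟨α, hα⟩ := ne_zero_iff.1 h0
    exact ⟨j, fis_ne (Nat.le_zero.1 (not_lt.1 fun e => hα (Nat.find_spec h j α (hn ▸ e)))) hα⟩
  · have := Nat.find_min h (m := n) (by omega)
    simp only [Ok, not_forall] at this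
    obtain ⟨i, α, h1, h2⟩ := this
    exact ⟨i, fis_ne (le_antisymm (not_lt.1 fun e => h2 (Nat.find_spec h i α (hn ▸ e))) h1) h2⟩

/-- Invariance under isometries. -/
theorem fis_iso [DecidableEq σ] (R : σ → σ → A) (c : σ → A)
    (hR : ∀ j l, ∑ i, R j i * R l i = if j = l then 1 else 0) (n : ℕ) {P : MvPolynomial σ A}
    (h : c = 0 ∨ Ok n P) : fis n (aeval (fun j => ∑ i, C (R j i) * X i + C (c j)) P)
      (aeval (fun j => ∑ i, C (R j i) * X i + C (c j)) P) = fis n P P := by
  set x : σ → MvPolynomial σ A := fun j => ∑ i, C (R j i) * X i + C (c j) with hx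
  suffices H : ∀ P Q : MvPolynomial σ A, c = 0 ∨ Ok n P → c = 0 ∨ Ok n Q →
    fis n (aeval x P) (aeval x Q) = fis n P Q from H P P h h
  clear h P
  induction n with
  | zero =>
    have h : ∀ P : MvPolynomial σ A, c = 0 ∨ Ok 0 P → coeff 0 (aeval x P) = coeff 0 P := by
      rintro P (h | h)
      · rw [← constantCoeff_eq]
        induction P using MvPolynomial.induction_on with
        | C a => simp
        | add p q hp hq => rw [map_add, map_add, map_add, hp, hq]
        | mul_X p i _ => simp [hx, h]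
      · rw [show P = C (coeff 0 P) from by
          ext α
          rw [coeff_C]
          split_ifs with e
          · rw [e]
          · exact h α (Nat.pos_of_ne_zero fun z => e ((Finsupp.degree_eq_zero_iff _).1 z).symm)]
        simp
    intro P Q hP hQ
    rw [fis_zero, fis_zero, h P hP, h Q hQ]
  | succ n ih =>
    intro P Q hP hQ
    have h : ∀ (P : MvPolynomial σ A) (i), c = 0 ∨ Ok (n + 1) P → c = 0 ∨ Ok n (pderiv i P) :=
      fun P i h => h.imp id fun h α hα => by
        rw [coeff_pderiv, h _ (by rw [map_add, Finsupp.degree_single]; omega), zero_mul]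
    have h1 : ∀ (P : MvPolynomial σ A) (i), pderiv i (aeval x P) =
        ∑ j, R j i • aeval x (pderiv j P) := fun P i => by
      rw [H65.chain]
      refine Finset.sum_congr rfl fun j _ => ?_
      simp [hx, pderiv_X, Pi.single_apply, smul_eq_C_mul, mul_comm]
    simp only [fis_succ, h1, map_sum, map_smul, LinearMap.sum_apply, LinearMap.smul_apply,
      smul_eq_mul, ih _ _ (h P _ hP) (h Q _ hQ), Finset.mul_sum]
    rw [Finset.sum_comm]
    refine Finset.sum_congr rfl fun j _ => ?_
    rw [Finset.sum_comm]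
    simp only [← mul_assoc, ← Finset.sum_mul, hR]
    simp

end Pool.Agent.MP_249f74_an.H44
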