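import Pool.Agent.MP_249f74_an.H44.Edge
import Pool.Agent.MP_249f74_an.H44.Fis

/-!
Either the factor is constant or the hypersurface is a cone over a plane curve.
-/

open MvPolynomial

namespace Pool.Agent.MP_249f74_an.H44

open H65

variable {k L K ι : Type} [Field k] [Field L] [Field K] [Algebra k K] [Fintype ι] [DecidableEq ι]
  [Algebra k L]

/-- The dual curve is planar. -/
def Cone (δ : Derivation k L L) (W : ι → L) (H : L) : Prop :=
  ∃ κ : L, (∀ i, δ (δ (δ (W i))) = κ * δ (δ (W i))) ∧ δ (δ (δ H)) = κ * δ (δ H)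

/-- The matrix of the reflection. -/
def rm (W : ι → L) (j i : ι) : L := (if j = i then 1 else 0) - 2 * W j / (∑ l, W l ^ 2) * W i

omit [Algebra k L] in
lemma rm_orth {W : ι → L} (h : ∑ l, W l ^ 2 ≠ 0) (j l : ι) :
    ∑ i, rm W j i * rm W l i = if j = l then 1 else 0 := by
  have : ∀ a b : L, ∑ i, a * W i * (b * W i) = a * b * ∑ l, W l ^ 2 := fun a b => by
    rw [Finset.mul_sum]; exact Finset.sum_congr rfl fun i _ => by ring
  simp only [rm, mul_sub, sub_mul, Finset.sum_sub_distrib, this]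
  simp only [ite_mul, mul_ite, one_mul, mul_one, zero_mul, mul_zero, Finset.sum_ite_eq,
    Finset.mem_univ, if_true]
  split_ifs <;> field_simp <;> ring

omit [Algebra k L] in
lemma rv_eq {B : Type} [CommRing B] [Algebra L B] (W : ι → L) (u : ι → B) (j : ι) :
    rv W u j = ∑ i, algebraMap L B (rm W j i) * u i := by
  simp [rv, rm, sub_mul, apply_ite (algebraMap L B), dot, Finset.mul_sum, mul_assoc]

variable [Algebra L K] [IsScalarTower k L K]

namespace R1

variable {q : ι → K} {e o : ι} {d : ι → Derivation k K K} {δ : Derivation k L L} {W : ι → L}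
  {H : L} {lam : K} (h : R1 q e d δ W H lam o)
include h

lemma indep {a : ι → L} {b : L} (ae : a e = 0) (ao : a o = 0) (ha : dot a q = algebraMap L K b) :
    (∀ i, a i = 0) ∧ b = 0 := by
  have h1 := h.d_dot a o
  have h2 : ∀ i, a i = 0 := fun i => by
    have h2 := h.d_dot a i
    simp only [ha, h.dl, h.wo, ae, ao, map_mul, map_one, zero_mul, sub_zero, map_zero, mul_zero,
      add_zero, one_mul] at h1 h2
    simpa [h1, h.l0] using h2
  exact ⟨h2, by simpa [dot, h2] using ha.symm⟩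

lemma cone_or : Cone δ W H ∨ ∃ y : ι → L, ∑ i, W i * y i = 0 ∧ ∑ i, δ (W i) * y i = 0 ∧
    ∑ i, δ (δ (W i)) * y i = -1 := by
  by_cases h0 : ∀ i, δ (δ (W i)) = 0
  · have : δ (δ H) ≠ 0 := fun e => h.l0 (by simp [h.h2, e, dot, h0])
    exact Or.inl ⟨δ (δ (δ H)) / δ (δ H), fun i => by simp [h0], by field_simp⟩
  · obtain ⟨j, hj⟩ := not_forall.1 h0
    refine Or.inr ⟨fun i => -(δ (δ (W j)))⁻¹ * (((if i = j then 1 else 0) -
      if i = o then δ (W j) else 0) - if i = e then W j - δ (W j) * W o else 0), ?_, ?_, ?_⟩ <;>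
      simp only [mul_left_comm _ (-(δ (δ (W j)))⁻¹), ← Finset.mul_sum] <;>
      simp [mul_sub, h.we, h.wo, hj, mul_comm]

lemma cone [CharZero L] {F : MvPolynomial (ι ⊕ ι) k} (hF : Lin F) (F0 : pen q F ≠ 0)
    (hr : rf (fun i => algebraMap L K (W i)) (pen q F) = pen q F) {y : ι → L}
    (y0 : ∑ i, W i * y i = 0) (y1 : ∑ i, δ (W i) * y i = 0) (y2 : ∑ i, δ (δ (W i)) * y i = -1)
    (hp : (lin fun i => algebraMap L K (W i)) ∣ pen q F ∨ (lin fun i => algebraMap L K (W i)) ∣
      pen (fun i => q i - lam * algebraMap L K (y i)) F) : Cone δ W H := by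
  have h1 := h.edge hF F0 hr y0 y1 y2 hp
  rw [dot_sub, dot_mul, dot_alg, h.h2] at h1
  have := h.indep (a := fun i => δ (δ (δ (W i))) + (∑ i, δ (δ (δ (W i))) * y i) * δ (δ (W i)))
    (b := δ (δ (δ H)) + (∑ i, δ (δ (δ (W i))) * y i) * δ (δ H)) (by simp [h.me]) (by simp [h.wo])
    (by
      generalize ∑ i, δ (δ (δ (W i))) * y i = κ at h1
      simp only [dot, map_add, map_mul, add_mul, Finset.sum_add_distrib, mul_assoc,
        ← Finset.mul_sum] at h1 ⊢
      linear_combination -h1)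
  exact ⟨-∑ i, δ (δ (δ (W i))) * y i, fun i => by linear_combination this.1 i,
    by linear_combination this.2⟩

lemma inv {F0 F1 : MvPolynomial (ι ⊕ ι) k} {c : K}
    (hr : rf (fun i => algebraMap L K (W i)) (pen q F1) = C c * pen q F0) :
    rf (fun i => algebraMap L K (W i)) (pen q (F0 * F1)) = pen q (F0 * F1) := by
  have hr' : pen q F1 = C c * rf (fun i => algebraMap L K (W i)) (pen q F0) := by
    rw [← h.gr.rf_rf (pen q F1), hr, map_mul, rf, aeval_C]; rfl
  rw [map_mul, map_mul, hr, hr']; ring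

/-- Away from cones the factor is constant. -/
theorem r2 [CharZero L] [IsFormallyReal K] {F0 F1 : MvPolynomial (ι ⊕ ι) k} (l0 : Lin F0)
    (l1 : Lin F1) {c : L} (c0 : c ≠ 0) (f0 : pen q F0 ≠ 0)
    (hr : rf (fun i => algebraMap L K (W i)) (pen q F1) = C (algebraMap L K c) * pen q F0) :
    δ c = 0 ∨ Cone δ W H := by
  have : CharZero K := charZero_of_injective_algebraMap (algebraMap L K).injective
  refine h.cone_or.elim Or.inr fun ⟨y, y0, y1, y2⟩ => or_iff_not_imp_left.2 fun dc => ?_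
  have f1 : pen q F1 ≠ 0 := fun e => by simp [e, c0, f0] at hr
  refine h.cone (l0.mul l1) (by simp [f0, f1]) (h.inv hr) y0 y1 y2 (Or.inr ?_)
  obtain ⟨p, hp⟩ : ∃ p : ι → K, p = fun i => q i - lam * algebraMap L K (y i) := ⟨_, rfl⟩
  rw [← hp]
  suffices pen p F0 = 0 by simp [this]
  by_contra p0
  obtain ⟨α, hα⟩ := ne_zero_iff.1 p0
  refine fis_ne rfl hα ?_
  generalize α.degree = n
  obtain ⟨N, hN⟩ : ∃ N : MvPolynomial (ι ⊕ ι) k → MvPolynomial ι k, ∀ F (x : ι → K),
      aeval x (N F) = fis n (pen x F) (pen x F) :=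
    ⟨fun F => fis (A := MvPolynomial ι k) n (ev (fun i => C (X i)) X F) (ev (fun i => C (X i)) X F),
      fun F x => by
      have : map (aeval x : MvPolynomial ι k →ₐ[k] K).toRingHom (ev (fun i => C (X i)) X F) =
          pen x F := (map_ev (mapAlgHom (aeval x)) _ _ F).trans (by simp [pen])
      rw [← this, fis_map]; rfl⟩
  have h1 : aeval q (N F1) = algebraMap L K c ^ 2 * aeval q (N F0) := by
    have : rf (fun i => algebraMap L K (W i)) (pen q F1) = aeval (fun j =>
        ∑ i, C (algebraMap L K (rm W j i)) * X i + C ((0 : ι → K) j)) (pen q F1) := by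
      rw [rf_pen, pen, ← AlgHom.restrictScalars_apply L (aeval _), av_ev]
      exact ev_congr (fun i => by simp) (fun i => by simp [rv_eq]) _
    rw [hN, hN, ← fis_C, ← hr, this, fis_iso _ 0 (fun j l => by
      simpa [apply_ite (algebraMap L K)] using congrArg (algebraMap L K) (rm_orth h.nw j l)) n
      (Or.inl rfl)]
  obtain ⟨z, hz⟩ : ∃ z : ι → L, ∀ i, d o (q i) = algebraMap L K (z i) :=
    ⟨fun i => (if i = o then 1 else 0) - if i = e then W o else 0, fun i => by
      simp [h.gr.dq, apply_ite (algebraMap L K)]⟩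
  have h2 := congrArg (fun a => lam * d o a) h1
  simp only [Derivation.leibniz, Derivation.leibniz_pow, chain, hz, smul_eq_mul, mul_add,
    nsmul_eq_mul] at h2
  have hc := h.dd c
  have pd : ∀ a : ι → L, dot a p = dot a q - lam * algebraMap L K (∑ i, a i * y i) := fun a => by
    rw [hp, dot_sub, dot_mul, dot_alg]
  have h3 := h.sp (σ := ι) (G := (C (δ (δ H)) - dot (fun i => δ (δ (W i))) fun i => X (.inl i)) *
    (dot z (fun i => aeval (fun i => X (.inl i)) (pderiv i (N F1))) - C (c ^ 2) *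
      dot z fun i => aeval (fun i => X (.inl i)) (pderiv i (N F0))) -
    C (2 * c * δ c) * aeval (fun i => X (.inl i)) (N F0)) (by
      have e1 : ∀ P : MvPolynomial ι k, aeval (Sum.elim (fun i => C (q i)) X :
          ι ⊕ ι → MvPolynomial ι K) (aeval (fun i => (X (.inl i) : MvPolynomial (ι ⊕ ι) L)) P) =
          C (aeval q P) := fun P => by
        rw [← AlgHom.restrictScalars_apply k, comp_aeval_apply, ← MvPolynomial.algebraMap_eq,
          ← IsScalarTower.toAlgHom_apply k K, comp_aeval_apply]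
        simp
      simp only [map_sub, map_mul, dot, map_sum, e1, aeval_C, aeval_X, Sum.elim_inl,
        MvPolynomial.algebraMap_apply, map_pow, map_ofNat, Algebra.algebraMap_self,
        RingHom.id_apply]
      have e2 := congrArg (C : K →+* MvPolynomial ι K) h.h2
      have e3 := congrArg (C : K →+* MvPolynomial ι K) h2
      have e4 := congrArg (C : K →+* MvPolynomial ι K) hc
      simp only [map_sub, dot, map_sum, map_mul, map_add, map_pow, map_natCast,
        mul_comm (C (aeval q _))] at e2 e3 e4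
      rw [← e2]
      push_cast at e3
      linear_combination e3 + 2 * C (algebraMap L K c) * C (aeval q (N F0)) * e4)
    (B := K) (x := p) (by simp [pd, y0, h.h0]) (by simp [pd, y1, h.h1]) 0
  have e1 : aeval (Sum.elim p 0) (aeval (fun i => (X (.inl i) : MvPolynomial (ι ⊕ ι) L)) (N F0)) =
      aeval p (N F0) := by
    rw [← AlgHom.restrictScalars_apply k, comp_aeval_apply]; simp
  simp only [map_sub, map_mul, map_dot, e1, aeval_C, aeval_X, Sum.elim_inl, pd, y2] at h3
  rw [show algebraMap L K (δ (δ H)) - (dot (fun i => δ (δ (W i))) q - lam * algebraMap L K (-1)) = 0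
    by simp [h.h2], hN] at h3
  simpa [c0, dc, map_ofNat] using h3

lemma three {f θ κ : L} (θ0 : δ (δ θ) ≠ 0) (hθ : δ (δ (δ θ)) = κ * δ (δ θ))
    (hf : δ (δ (δ f)) = κ * δ (δ f)) : ∃ a : Fin 3 → k, f = algebraMap k L (a 0) +
      W o * algebraMap k L (a 1) + θ * algebraMap k L (a 2) := by
  obtain ⟨a2, h2⟩ := h.cst (a := δ (δ f) / δ (δ θ)) (by
    rw [Derivation.leibniz_div, hθ, hf]; simp; right; ring)
  obtain ⟨a1, h1⟩ := h.cst (a := δ f - δ θ * algebraMap k L a2) (by
    simp [← (div_eq_iff θ0).1 h2])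
  obtain ⟨a0, h0⟩ := h.cst (a := f - W o * algebraMap k L a1 - θ * algebraMap k L a2) (by
    simp [h.wo]; linear_combination h1)
  exact ⟨![a0, a1, a2], by simp; linear_combination h0⟩

/-- Coordinates in the plane of the dual curve. -/
lemma plane (hc : Cone δ W H) : ∃ (θ : L) (a : ι → Fin 3 → k) (b : Fin 3 → k), δ (δ θ) ≠ 0 ∧
    (∀ i, W i = algebraMap k L (a i 0) + W o * algebraMap k L (a i 1) + θ * algebraMap k L (a i 2))
      ∧ H = algebraMap k L (b 0) + W o * algebraMap k L (b 1) + θ * algebraMap k L (b 2) := by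
  obtain ⟨κ, h1, h2⟩ := hc
  obtain ⟨θ, θ0, hθ⟩ : ∃ θ, δ (δ θ) ≠ 0 ∧ δ (δ (δ θ)) = κ * δ (δ θ) := by
    by_cases h0 : ∀ i, δ (δ (W i)) = 0
    · exact ⟨H, fun e => h.l0 (by simp [h.h2, e, dot, h0]), h2⟩
    · obtain ⟨j, hj⟩ := not_forall.1 h0
      exact ⟨W j, hj, h1 j⟩
  choose a ha using fun i => h.three θ0 hθ (h1 i)
  obtain ⟨b, hb⟩ := h.three θ0 hθ h2
  exact ⟨θ, a, b, θ0, ha, hb⟩

end R1

end Pool.Agent.MP_249f74_an.H44
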