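import Pool.Agent.MP_249f74_an.H44.Cone

/-!
The restriction of a line polynomial to the hyperplanes through the ruling.
-/

open MvPolynomial

namespace Pool.Agent.MP_249f74_an.H44

open H65

variable {k L K ι : Type} [Field k] [Field L] [Field K] [Algebra k K] [Fintype ι] [DecidableEq ι]

section Hv

variable {τ B B' : Type} [Fintype τ] [CommRing B] [Algebra k B] [CommRing B'] [Algebra k B']

/-- The homogenized value of a polynomial. -/
noncomputable def hv (F : MvPolynomial τ k) (D : ℕ) (z : τ → B) (β : B) : B :=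
  ∑ α ∈ F.support, algebraMap k B (coeff α F) * β ^ (D - α.degree) * ∏ i, z i ^ α i

lemma map_hv (φ : B →ₐ[k] B') (F : MvPolynomial τ k) (D : ℕ) (z : τ → B) (β : B) :
    φ (hv F D z β) = hv F D (fun i => φ (z i)) (φ β) := by simp [hv]

lemma hv_smul {F : MvPolynomial τ k} {D : ℕ} (hD : F.totalDegree ≤ D) (z : τ → B) (β t : B) :
    hv F D (fun i => t * z i) (t * β) = t ^ D * hv F D z β := by
  rw [hv, hv, Finset.mul_sum]
  refine Finset.sum_congr rfl fun α hα => ?_
  obtain ⟨m, rfl⟩ := Nat.exists_eq_add_of_le (show α.degree ≤ D from (le_totalDegree hα).trans hD)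
  simp only [mul_pow, Finset.prod_mul_distrib, Finset.prod_pow_eq_pow_sum, Nat.add_sub_cancel_left,
    ← Finsupp.degree_eq_sum]
  ring

lemma hv_one (F : MvPolynomial τ k) (D : ℕ) (z : τ → B) : hv F D z 1 = aeval z F := by
  simp [hv, aeval_def, eval₂_eq']

/-- The restriction to the lines of the hyperplane `A . x = b`. -/
noncomputable def psi (F : MvPolynomial (ι ⊕ ι) k) (D : ℕ) (A : ι → B) (b : B) :
    MvPolynomial (ι ⊕ ι) B :=
  hv F D (Sum.elim
    (fun i => C (∑ j, A j ^ 2) * X (.inl i) - C (A i) * (∑ j, C (A j) * X (.inl j) - C b))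
    fun i => C (∑ j, A j ^ 2) * X (.inr i) - C (A i) * ∑ j, C (A j) * X (.inr j)) (C (∑ j, A j ^ 2))

omit [DecidableEq ι] in
lemma map_psi (φ : B →ₐ[k] B') (F : MvPolynomial (ι ⊕ ι) k) (D : ℕ) (A : ι → B) (b : B) :
    map φ.toRingHom (psi F D A b) = psi F D (fun i => φ (A i)) (φ b) := by
  refine (map_hv (mapAlgHom φ) _ _ _ _).trans (congrArg₂ (hv F D) (funext ?_) (by simp))
  rintro (i | i) <;> simp

omit [DecidableEq ι] in
lemma psi_smul {F : MvPolynomial (ι ⊕ ι) k} {D : ℕ} (hD : F.totalDegree ≤ D) (A : ι → B)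
    (b t : B) : psi F D (fun i => t * A i) (t * b) = C (t ^ (2 * D)) * psi F D A b := by
  rw [psi, psi, pow_mul, map_pow, ← hv_smul hD]
  refine congrArg₂ (hv F D) (funext ?_) (by simp [mul_pow, Finset.mul_sum])
  rintro (i | i) <;> simp only [Sum.elim_inl, Sum.elim_inr, mul_pow, map_mul, map_pow, mul_assoc,
    ← Finset.mul_sum] <;> ring

lemma hom_of_two [CharZero k] {G : MvPolynomial τ k} {n : ℕ}
    (h : aeval (fun i => C 2 * X i) G = C (2 ^ n : k) * G) : G.IsHomogeneous n := fun α hα => by
  classical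
  have h1 : ∀ G : MvPolynomial τ k, coeff α (aeval (fun i => (C 2 * X i : MvPolynomial τ k)) G) =
      2 ^ α.degree * coeff α G := fun G => by
    induction G using MvPolynomial.induction_on' with
    | monomial β c =>
      rw [aeval_monomial, Finsupp.prod_fintype _ _ (by simp)]
      simp only [mul_pow, Finset.prod_mul_distrib, Finset.prod_pow_eq_pow_sum,
        ← Finsupp.degree_eq_sum, algebraMap_eq]
      rw [mul_left_comm, ← map_pow, coeff_C_mul, ← Finsupp.prod_fintype β (fun i n => X i ^ n)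
        (by simp), ← monomial_eq, coeff_monomial]
      split_ifs with e <;> simp [e]
    | add p q hp hq => simp only [map_add, coeff_add, hp, hq, mul_add]
  have h2 := h1 G
  rw [h, coeff_C_mul, mul_left_inj' hα] at h2
  have h3 : α.degree = n := Nat.pow_right_injective le_rfl (by exact_mod_cast h2.symm)
  rwa [Finsupp.degree_eq_weight_one] at h3

end Hv

/-- Subtract a multiple of an affine form. -/
def cor {B : Type} [CommRing B] [Algebra L B] (c A : ι → L) (b : L) (Y : ι → B) (i : ι) : B :=
  Y i - algebraMap L B (c i) * (dot A Y - algebraMap L B b)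

omit [DecidableEq ι] in
lemma dot_cor {B : Type} [CommRing B] [Algebra L B] (a c A : ι → L) (b : L) (Y : ι → B) :
    dot a (cor c A b Y) =
      dot a Y - algebraMap L B (∑ i, a i * c i) * (dot A Y - algebraMap L B b) := by
  rw [← dot_alg, mul_comm, ← dot_mul, ← dot_sub]
  exact congrArg _ (funext fun i => by rw [cor, mul_comm])

omit [DecidableEq ι] in
lemma dot_comb {B : Type} [CommRing B] [Algebra L B] (a b : ι → L) (s t : L) (Y : ι → B) :
    dot (fun i => s * a i + t * b i) Y =
      algebraMap L B s * dot a Y + algebraMap L B t * dot b Y := by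
  simp [dot, add_mul, Finset.sum_add_distrib, Finset.mul_sum, mul_assoc]

/-- The reflection on points and directions. -/
def rb (W : ι → L) : ι ⊕ ι → ι ⊕ ι → L :=
  Sum.elim (fun j => Sum.elim (rm W j) 0) fun j => Sum.elim 0 (rm W j)

lemma rb_orth {W : ι → L} (h : ∑ l, W l ^ 2 ≠ 0) (j l : ι ⊕ ι) :
    ∑ i, rb W j i * rb W l i = if j = l then 1 else 0 := by
  rcases j with j | j <;> rcases l with l | l <;> simp [rb, rm_orth h]

variable [Algebra k L]

omit [DecidableEq ι] in
lemma psi_ev {B : Type} [CommRing B] [Algebra L B] [Algebra k B] [IsScalarTower k L B]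
    {F : MvPolynomial (ι ⊕ ι) k} {D : ℕ} (hD : F.totalDegree ≤ D) {A : ι → L}
    (hA : ∑ j, A j ^ 2 ≠ 0) (b : L) (Y V : ι → B) : aeval (Sum.elim Y V) (psi F D A b) =
      algebraMap L B (∑ j, A j ^ 2) ^ D * ev (cor (fun i => A i / ∑ j, A j ^ 2) A b Y)
        (cor (fun i => A i / ∑ j, A j ^ 2) A 0 V) F := by
  rw [ev, ← hv_one F D, ← hv_smul hD, psi, ← AlgHom.restrictScalars_apply k, map_hv]
  refine congrArg₂ (hv F D) (funext ?_) (by simp)
  have : ∀ i, algebraMap L B (∑ j, A j ^ 2) * algebraMap L B (A i / ∑ j, A j ^ 2) =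
    algebraMap L B (A i) := fun i => by rw [← map_mul, mul_div_cancel₀ _ hA]
  rintro (i | i) <;> simp only [Sum.elim_inl, Sum.elim_inr, cor, mul_sub _ (Y i), mul_sub _ (V i),
    ← mul_assoc, this] <;> simp [dot]

variable [Algebra L K] [IsScalarTower k L K]

namespace R1

variable {q : ι → K} {e o : ι} {d : ι → Derivation k K K} {δ : Derivation k L L} {W : ι → L}
  {H : L} {lam : K} (h : R1 q e d δ W H lam o)
include h

lemma ani {s t : L} (h0 : ∑ i, (s * W i + t * δ (W i)) ^ 2 = 0) : s = 0 ∧ t = 0 := by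
  have := h.gr.ani (fun i => algebraMap L K (s * W i + t * δ (W i))) (by
    simpa using congrArg (algebraMap L K) h0)
  have h1 := (map_eq_zero _).1 (congrFun this e)
  have h2 := (map_eq_zero _).1 (congrFun this o)
  have h3 : s = 0 := by simpa [h.we] using h1
  exact ⟨h3, by simpa [h3, h.wo] using h2⟩

omit h in
lemma meet {B : Type} [Field B] {s t a b a' b' : B} (st : s ≠ 0 ∨ t ≠ 0) (hu : a' ≠ 0 ∨ b' ≠ 0)
    (h1 : s * a + t * b = 0) (h2 : s * a' + t * b' = 0) : ∃ τ, a + τ * a' = 0 ∧ b + τ * b' = 0 := by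
  by_cases a0 : a' = 0
  · have b0 := hu.resolve_left (· a0)
    have t0 : t = 0 := by simpa [a0, b0] using h2
    exact ⟨-b / b', by simpa [a0, t0, st.resolve_right (· t0)] using h1, by field_simp; ring⟩
  · have t0 : t ≠ 0 := fun t0 => st.elim (fun s0 => by simp [t0, s0, a0] at h2) (· t0)
    refine ⟨-a / a', by field_simp; ring, mul_left_cancel₀ (mul_ne_zero t0 a0) ?_⟩
    linear_combination a' * h1 - a * h2 + t * b' * div_mul_cancel₀ (-a) a0

/-- The relation on the lines of a hyperplane through the ruling. -/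
theorem gam [CharZero L] {F0 F1 : MvPolynomial (ι ⊕ ι) k} (l0 : Lin F0) (l1 : Lin F1) {c : L}
    (hr : rf (fun i => algebraMap L K (W i)) (pen q F1) = C (algebraMap L K c) * pen q F0)
    {D : ℕ} (d0 : F0.totalDegree ≤ D) (d1 : F1.totalDegree ≤ D) {s t ω : L} (st : s ≠ 0 ∨ t ≠ 0)
    (hω : ω * ∑ i, W i ^ 2 = 2 * ∑ i, δ (W i) * W i) :
    (aeval (fun j => ∑ i, C (rb W j i) * X i +
      C (Sum.elim (fun j => 2 * W j / (∑ l, W l ^ 2) * H) 0 j))
      (psi F1 D (fun i => (s + ω * t) * W i + -t * δ (W i)) ((s + ω * t) * H + -t * δ H)) =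
      C c * psi F0 D (fun i => s * W i + t * δ (W i)) (s * H + t * δ H)) ∧
    (t = 0 → (lin fun i => algebraMap L K (W i)) ∣ pen q F0 →
      psi F0 D (fun i => s * W i + t * δ (W i)) (s * H + t * δ H) = 0) := by
  have : CharZero k := (algebraMap k L).charZero
  let B := FractionRing (MvPolynomial (ι ⊕ ι) K)
  obtain ⟨Y, hY⟩ : ∃ Y : ι → B, Y = fun i => algebraMap (MvPolynomial (ι ⊕ ι) K) B (X (.inl i)) :=
    ⟨_, rfl⟩
  obtain ⟨V, hV⟩ : ∃ V : ι → B, V = fun i => algebraMap (MvPolynomial (ι ⊕ ι) K) B (X (.inr i)) :=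
    ⟨_, rfl⟩
  have hj : Function.Injective (aeval (Sum.elim Y V) : MvPolynomial (ι ⊕ ι) L →ₐ[L] B) := by
    have : ∀ P : MvPolynomial (ι ⊕ ι) L, aeval (Sum.elim Y V) P =
        algebraMap (MvPolynomial (ι ⊕ ι) K) B (map (algebraMap L K) P) := fun P => by
      rw [← IsScalarTower.toAlgHom_apply L, map_eq_eval₂Hom_C_comp]
      refine Eq.trans (congrArg (aeval · P) (funext ?_)) (comp_aeval_apply X _ P).symm
      rintro (i | i) <;> simp [hY, hV]
    intro P Q e
    rw [this, this] at e
    exact map_injective _ (algebraMap L K).injective (IsFractionRing.injective _ _ e)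
  have b0 : ∑ i, (s * W i + t * δ (W i)) ^ 2 ≠ 0 := fun e => by simp [h.ani e] at st
  have sq : ∀ s t : L, ∑ i, (s * W i + t * δ (W i)) ^ 2 = s ^ 2 * ∑ i, W i ^ 2 +
      2 * s * t * ∑ i, δ (W i) * W i + t ^ 2 * ∑ i, δ (W i) ^ 2 := fun s t => by
    simp only [Finset.mul_sum, ← Finset.sum_add_distrib]
    exact Finset.sum_congr rfl fun i _ => by ring
  have b1 : ∑ i, ((s + ω * t) * W i + -t * δ (W i)) ^ 2 = ∑ i, (s * W i + t * δ (W i)) ^ 2 := by
    rw [sq, sq]; linear_combination (2 * s * t + ω * t ^ 2) * hω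
  obtain ⟨β, hβ⟩ : ∃ β, ∑ i, (s * W i + t * δ (W i)) ^ 2 = β := ⟨_, rfl⟩
  have key : ∀ (H H' : L) (Y : ι → B),
      cor (fun i => ((s + ω * t) * W i + -t * δ (W i)) / β)
        (fun i => (s + ω * t) * W i + -t * δ (W i)) ((s + ω * t) * H + -t * H')
        (cor (fun i => 2 * W i / ∑ j, W j ^ 2) W H Y) = cor (fun i => 2 * W i / ∑ j, W j ^ 2) W H
        (cor (fun i => (s * W i + t * δ (W i)) / β) (fun i => s * W i + t * δ (W i))
          (s * H + t * H') Y) := fun H H' Y => by
    have n0 := h.nw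
    have e1 : ∑ i, W i * (2 * W i / ∑ j, W j ^ 2) = 2 := by
      simp only [mul_div_assoc', ← Finset.sum_div, mul_left_comm _ (2 : L), ← Finset.mul_sum, ← pow_two]
      field_simp
    have e2 : ∑ i, δ (W i) * (2 * W i / ∑ j, W j ^ 2) = ω := by
      simp only [mul_div_assoc', ← Finset.sum_div, mul_left_comm _ (2 : L), ← Finset.mul_sum, ← hω]
      field_simp
    have e3 : ∀ i, 2 * W i / (∑ j, W j ^ 2) * ∑ i, W i * ((s * W i + t * δ (W i)) / β) =
        (2 * s + ω * t) * W i / β := fun i => by
      simp only [mul_div_assoc', ← Finset.sum_div, mul_add, Finset.sum_add_distrib,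
        mul_left_comm (W _), ← Finset.mul_sum, ← pow_two, mul_comm (W _) (δ _)]
      field_simp
      linear_combination (-W i * t * β⁻¹) * hω
    ext i
    have e4 := congrArg (algebraMap L B) (e3 i)
    rw [cor, cor, cor, cor, dot_comb, dot_cor, dot_cor, dot_cor, dot_comb, e1, e2]
    simp only [map_mul, div_eq_mul_inv _ β, map_add, map_neg, map_ofNat] at e4 ⊢
    linear_combination (algebraMap L B s * dot W Y + algebraMap L B t * dot (fun i => δ (W i)) Y -
      (algebraMap L B s * algebraMap L B H + algebraMap L B t * algebraMap L B H')) * -e4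
  obtain ⟨x, hx⟩ : ∃ x, x = cor (fun i => (s * W i + t * δ (W i)) / β)
    (fun i => s * W i + t * δ (W i)) (s * H + t * δ H) Y := ⟨_, rfl⟩
  obtain ⟨u, hu⟩ : ∃ u, u = cor (fun i => (s * W i + t * δ (W i)) / β)
    (fun i => s * W i + t * δ (W i)) 0 V := ⟨_, rfl⟩
  have e1 : ∑ i, (s * W i + t * δ (W i)) * ((s * W i + t * δ (W i)) / β) = 1 := by
    simp only [mul_div_assoc', ← Finset.sum_div, ← pow_two, hβ, div_self (hβ ▸ b0)]
  have u0 : algebraMap L B s * dot W u + algebraMap L B t * dot (fun i => δ (W i)) u = 0 := by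
    rw [← dot_comb, hu, dot_cor, e1]; simp
  obtain ⟨τ, t1, t2⟩ := meet (B := B) (s := algebraMap L B s) (t := algebraMap L B t)
    (a := dot W x - algebraMap L B H) (b := dot (fun i => δ (W i)) x - algebraMap L B (δ H))
    (by simpa using st) (by
      by_contra! hn
      have e2 : ∀ a : ι → L, dot a u = 0 → t * a e - s * (a o - a e * W o) = 0 := fun a ha => by
        have h1 := hj (a₁ := dot a (cor (fun i => (s * W i + t * δ (W i)) / β)
          (fun i => s * W i + t * δ (W i)) 0 fun i => X (.inr i))) (a₂ := 0) (by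
            rw [map_zero, ← ha, hu, dot_cor, dot_cor]; simp [map_dot])
        have h2 := congrArg (aeval (Sum.elim 0 fun i => (if i = e then t + s * W o else 0) -
          if i = o then s else 0) : _ →ₐ[L] L) h1
        rw [dot_cor] at h2
        simp only [map_sub, map_mul, map_dot, aeval_X, Sum.elim_inr, dot_sub, dot_ite, h.we,
          h.wo] at h2
        simp at h2
        linear_combination h2
      have e3 := e2 _ hn.1
      have e4 := e2 _ hn.2
      simp [h.we, h.wo] at e3 e4
      simp [e3, e4] at st) (by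
      have := dot_cor (fun i => s * W i + t * δ (W i)) (fun i => (s * W i + t * δ (W i)) / β)
        (fun i => s * W i + t * δ (W i)) (s * H + t * δ H) Y
      rw [← hx, e1, dot_comb W _ s t x] at this
      simp only [map_add, map_mul, map_one] at this
      linear_combination this) u0
  have p1 : dot W (fun i => x i + τ * u i) = algebraMap L B H := by
    rw [dot_add, dot_mul]; linear_combination t1
  have p2 : dot (fun i => δ (W i)) (fun i => x i + τ * u i) = algebraMap L B (δ H) := by
    rw [dot_add, dot_mul]; linear_combination t2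
  have k0 := key 0 0 V
  simp only [mul_zero, add_zero] at k0
  refine ⟨hj ?_, fun t0 ⟨Z, hZ⟩ => hj ?_⟩
  · rw [comp_aeval_apply, map_mul, psi_ev d0 b0, hβ, ← hx, ← hu, aeval_C, mul_left_comm,
      ← l0.tr x u τ, ← h.rel hr p1 p2,
      show (fun j => _) = Sum.elim (cor (fun i => 2 * W i / ∑ j, W j ^ 2) W H Y)
        (cor (fun i => 2 * W i / ∑ j, W j ^ 2) W 0 V) from funext ?_, psi_ev d1 (b1 ▸ b0), b1, hβ,
      key, ← hx, k0, ← hu, ← l1.tr _ _ τ]
    · refine congrArg _ (ev_congr (fun i => ?_) (fun i => by simp [cor, rv]) _)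
      simp only [cor, map_zero]
      linear_combination -algebraMap L B (2 * W i / ∑ j, W j ^ 2) * t1
    · rintro (i | i)
      · simp only [Fintype.sum_sum_type, rb, map_add, map_sum, map_mul, aeval_C, aeval_X,
          Sum.elim_inl, Sum.elim_inr, ← rv_eq, cor, rv]
        simp
        ring
      · simp only [Fintype.sum_sum_type, rb, map_add, map_sum, map_mul, aeval_C, aeval_X,
          Sum.elim_inl, Sum.elim_inr, ← rv_eq, cor, rv]
        simp
  · have w0 : dot W u = 0 := by simpa [t0, st.resolve_right (· t0)] using u0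
    have := h.sp (G := ev (fun i => X (.inl i))
      (fun i => X (.inr i) - if i = e then dot W fun i => X (.inr i) else 0) F0) (by
        have := congrArg ((eta (fun i => algebraMap L K (W i)) e).restrictScalars L) hZ
        rw [map_mul, AlgHom.restrictScalars_apply L _ (lin _), h.eta_g, zero_mul, pen,
          av_ev] at this
        rw [av_ev, ← this]
        refine ev_congr (fun i => by simp) (fun i => ?_) _
        by_cases hi : i = e <;> simp [hi, eta, map_dot, lin_dot]) p1 p2 u
    rw [av_ev] at this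
    rw [psi_ev d0 b0, hβ, ← hx, ← hu, ← l0.tr x u τ, map_zero]
    refine mul_eq_zero_of_right _ (Eq.trans (ev_congr (fun i => by simp) (fun i => ?_) _) this)
    by_cases hi : i = e <;> simp [hi, map_dot, w0]

end R1

end Pool.Agent.MP_249f74_an.H44
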