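import Pool.Agent.MP_249f74_an.H44.Gam
import Pool.Agent.MP_249f74_an.H22.Real
import Pool.Agent.MP_249f74_an.H65.Self

/-!
Mirrors of rank one: one step relations have a constant factor, and an invariant does not vanish
on the tangent lines, unless the mirror is a quadric.
-/

open MvPolynomial

namespace Pool.Agent.MP_249f74_an.H44

open H65

variable {k L K ι : Type} [Field k] [Field L] [Field K] [Algebra k K] [Fintype ι] [DecidableEq ι]

lemma real_of (φ : L →+* K) [IsFormallyReal K] : IsFormallyReal L :=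
  IsFormallyReal.of_eq_zero_of_eq_zero_of_mul_self_add fun {s a} hs e => by
    have h1 : IsSumSq (φ s) := by
      clear e
      induction hs with
      | zero => simp
      | sq_add b _ ih => simpa using (IsSumSq.mul_self _).add ih
    have := IsFormallyReal.eq_zero_of_add_right (IsSumSq.mul_self (φ a)) h1
      (by simpa using congrArg φ e)
    simpa using this

lemma pow_fac {g0 g1 b : Polynomial L} {c : L} {n : ℕ} (c0 : c ≠ 0) (hb : Irreducible b)
    (b2 : b.natDegree = 2) (d0 : g0.natDegree ≤ 2 * n) (d1 : g1.natDegree ≤ 2 * n)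
    (h : g0 * g1 = Polynomial.C c * b ^ (2 * n)) :
    b * Polynomial.derivative g0 = n * Polynomial.derivative b * g0 := by
  have h0 : g0 * g1 ≠ 0 := h ▸ mul_ne_zero (by simpa using c0) (pow_ne_zero _ hb.ne_zero)
  obtain ⟨i, -, u, hu⟩ := (dvd_prime_pow hb.prime _).1 ((Polynomial.isUnit_C.2
    c0.isUnit).dvd_mul_left.1 (h ▸ dvd_mul_right g0 g1))
  obtain ⟨a, a0, ha⟩ := Polynomial.isUnit_iff.1 u⁻¹.isUnit
  have e : g0 = Polynomial.C a * b ^ i := by rw [ha, ← hu, mul_comm, Units.mul_inv_cancel_right]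
  have h1 := congrArg Polynomial.natDegree h
  have h2 := congrArg Polynomial.natDegree e
  rw [Polynomial.natDegree_mul (left_ne_zero_of_mul h0) (right_ne_zero_of_mul h0)] at h1
  rw [Polynomial.natDegree_C_mul c0, Polynomial.natDegree_pow, b2] at h1
  rw [Polynomial.natDegree_C_mul a0.ne_zero, Polynomial.natDegree_pow, b2] at h2
  obtain rfl : i = n := by omega
  have := der_pow (k := L) Polynomial.derivative' b i
  simp only [Polynomial.derivative'_apply] at this
  rw [e, Polynomial.derivative_C_mul, mul_left_comm, this]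
  ring

variable [Algebra k L]

lemma der_line (δ : Derivation k L L) (N : Fin 3 → L) (G : MvPolynomial (Fin 3) k) :
    (Polynomial.derivative (aeval (fun i => Polynomial.C (N i) + Polynomial.X *
      Polynomial.C (δ (N i))) G)).eval 0 = δ (aeval N G) := by
  have h := comp_aeval_apply (fun i => Polynomial.C (N i) + Polynomial.X * Polynomial.C (δ (N i)))
    ((Polynomial.aeval 0 : Polynomial L →ₐ[L] L).restrictScalars k)
  simp only [AlgHom.restrictScalars_apply, Polynomial.coe_aeval_eq_eval] at h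
  rw [← der'_apply (k := k), chain, chain]
  simp only [der'_apply, Polynomial.eval_finsetSum, Polynomial.eval_mul, h]
  simp

variable [Algebra L K] [IsScalarTower k L K]

namespace R1

variable {q : ι → K} {e o : ι} {d : ι → Derivation k K K} {δ : Derivation k L L} {W : ι → L}
  {H : L} {lam : K} (h : R1 q e d δ W H lam o)
include h

lemma quad [CharZero K] {θ : L} {a : ι → Fin 3 → k} {b : Fin 3 → k} (θ0 : δ (δ θ) ≠ 0)
    (ha : ∀ i, W i = algebraMap k L (a i 0) + W o * algebraMap k L (a i 1) +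
      θ * algebraMap k L (a i 2))
    (hb : H = algebraMap k L (b 0) + W o * algebraMap k L (b 1) + θ * algebraMap k L (b 2))
    (hc : H22.Con3 k (W o * δ θ - θ * δ (W o)) (θ * δ 1 - 1 * δ θ) (1 * δ (W o) - W o * δ 1)) :
    Quad k q := by
  obtain ⟨Q, Q0, hQ, h0⟩ := hc
  obtain ⟨l, hl⟩ : ∃ l : Fin 3 → MvPolynomial ι k,
    l = fun j => ∑ i, C (a i j) * X i - C (b j) := ⟨_, rfl⟩
  have a1 : ∀ i, δ (W i) = algebraMap k L (a i 1) + δ θ * algebraMap k L (a i 2) := fun i => by
    rw [ha i]; simp [h.wo, mul_comm]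
  have b1 : δ H = algebraMap k L (b 1) + δ θ * algebraMap k L (b 2) := by
    rw [hb]; simp [h.wo, mul_comm]
  have key : ∀ x : ι → K, dot W x - algebraMap L K H = aeval x (l 0) + algebraMap L K (W o) *
      aeval x (l 1) + algebraMap L K θ * aeval x (l 2) ∧ dot (fun i => δ (W i)) x -
      algebraMap L K (δ H) = aeval x (l 1) + algebraMap L K (δ θ) * aeval x (l 2) ∧
      dot (fun i => δ (δ (W i))) x - algebraMap L K (δ (δ H)) =
        algebraMap L K (δ (δ θ)) * aeval x (l 2) := fun x => by
    generalize W o = s at ha hb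
    refine ⟨?_, ?_, ?_⟩
    · simp [hl, dot, ha, hb, ← IsScalarTower.algebraMap_apply, add_mul, mul_sub, Finset.mul_sum,
        Finset.sum_add_distrib, mul_assoc]
      ring
    · simp [hl, dot, a1, b1, ← IsScalarTower.algebraMap_apply, add_mul, mul_sub, Finset.mul_sum,
        Finset.sum_add_distrib, mul_assoc]
      ring
    · simp [hl, dot, a1, b1, ← IsScalarTower.algebraMap_apply, mul_sub, Finset.mul_sum,
        mul_assoc, mul_comm]
  have ev0 : ∀ x : ι → K, aeval x (aeval l Q) =
      H22.ev Q (aeval x (l 0)) (aeval x (l 1)) (aeval x (l 2)) := fun x => by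
    rw [comp_aeval_apply, H22.ev]
    exact congrArg (aeval · Q) (funext fun j => by fin_cases j <;> rfl)
  obtain ⟨k0, k1, k2⟩ := key q
  rw [h.h0, sub_self] at k0
  rw [h.h1, sub_self] at k1
  have g0 : aeval q (l 2) ≠ 0 := fun e => h.l0 (by rw [h.h2, ← neg_sub, k2, e]; simp)
  refine ⟨aeval l Q, fun P0 => Q0 ?_, ?_, ?_⟩
  · have h1 : ∀ u v : K, H22.ev Q u v (aeval q (l 2)) = 0 := fun u v => by
      obtain ⟨β, hβ⟩ : ∃ β, β = v + algebraMap L K (δ θ) * aeval q (l 2) := ⟨_, rfl⟩
      obtain ⟨α, hα⟩ : ∃ α, α = u + algebraMap L K (W o) * v + algebraMap L K θ * aeval q (l 2) :=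
        ⟨_, rfl⟩
      obtain ⟨j0, j1, j2⟩ := key fun i => q i + ((if i = o then β else 0) +
        if i = e then α - algebraMap L K (W o) * β else 0)
      have := ev0 fun i => q i + ((if i = o then β else 0) +
        if i = e then α - algebraMap L K (W o) * β else 0)
      simp only [dot_add, dot_ite, h.we, h.wo, h.h0, h.h1, map_zero, map_one, zero_mul,
        add_zero, Derivation.map_one_eq_zero, k2] at j0 j1 j2
      have j3 := mul_left_cancel₀ ((_root_.map_ne_zero _).2 θ0) j2
      rw [P0, map_zero, ← j3] at this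
      rw [← j3] at j0 j1
      rw [this]
      congr 1
      · linear_combination j0 - algebraMap L K (W o) * j1 - hα + algebraMap L K (W o) * hβ
      · linear_combination j1 - hβ
    refine map_injective _ (algebraMap k K).injective (mul_left_cancel₀ (X_ne_zero 2)
      ((H22.eq_zero_of_ev fun u v w => ?_ : X 2 * map (algebraMap k K) Q = 0).trans (by simp)))
    by_cases w0 : w = 0
    · simp [w0]
    · have := H22.ev_smul hQ (w / aeval q (l 2)) (u * aeval q (l 2) / w) (v * aeval q (l 2) / w)
        (aeval q (l 2))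
      rw [h1, mul_zero] at this
      field_simp at this
      rw [H22.ev_mul]
      exact mul_eq_zero_of_right _ ((aeval_map_algebraMap K _ _).trans this)
  · have h1 : ∀ j, (l j).totalDegree ≤ 1 := fun j => hl ▸ (totalDegree_sub _ _).trans (max_le
      (lin_hom fun i => a i j).totalDegree_le (by simp))
    rw [aeval_def, eval₂_eq']
    refine totalDegree_finsetSum_le fun α hα => (totalDegree_mul _ _).trans ?_
    rw [algebraMap_eq, totalDegree_C, zero_add, ← H22.deg3 hQ hα, ← Fin.sum_univ_three]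
    exact (totalDegree_finsetProd _ _).trans (Finset.sum_le_sum fun j _ =>
      (totalDegree_pow _ _).trans (by simpa using Nat.mul_le_mul_left (α j) (h1 j)))
  · have := H22.ev_smul hQ (aeval q (l 2)) (algebraMap L K (W o * δ θ - θ * δ (W o)))
      (algebraMap L K (θ * δ 1 - 1 * δ θ)) (algebraMap L K (1 * δ (W o) - W o * δ 1))
    rw [← IsScalarTower.toAlgHom_apply k, ← IsScalarTower.toAlgHom_apply k,
      ← IsScalarTower.toAlgHom_apply k, ← H22.map_ev, h0, map_zero, mul_zero] at this
    rw [ev0, ← this]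
    congr 1 <;> simp [h.wo]
    · linear_combination -k0 + algebraMap L K (W o) * k1
    · linear_combination -k1

/-- Cones: reduction to the plane. -/
theorem two [CharZero k] [IsFormallyReal K] (hc : Cone δ W H) {F0 F1 : MvPolynomial (ι ⊕ ι) k}
    (l0 : Lin F0) (l1 : Lin F1) {c : L} (c0 : c ≠ 0) (f0 : pen q F0 ≠ 0)
    (hr : rf (fun i => algebraMap L K (W i)) (pen q F1) = C (algebraMap L K c) * pen q F0) :
    Quad k q ∨ δ c = 0 ∧ ¬ (lin fun i => algebraMap L K (W i)) ∣ pen q F0 := by
  have : CharZero L := charZero_of_injective_algebraMap (algebraMap k L).injective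
  have : CharZero K := charZero_of_injective_algebraMap (algebraMap L K).injective
  have := real_of (algebraMap L K)
  obtain ⟨θ, a, b, θ0, ha, hb⟩ := h.plane hc
  obtain ⟨D, d0, d1, D0⟩ : ∃ D, F0.totalDegree ≤ D ∧ F1.totalDegree ≤ D ∧ D ≠ 0 :=
    ⟨F0.totalDegree + F1.totalDegree + 1, by omega, by omega, by omega⟩
  obtain ⟨ω, hω⟩ : ∃ ω : L, ω * ∑ i, W i ^ 2 = 2 * ∑ i, δ (W i) * W i :=
    ⟨_, div_mul_cancel₀ _ h.nw⟩
  obtain ⟨P, hP⟩ : ∃ P : MvPolynomial (ι ⊕ ι) k → L → L → MvPolynomial (ι ⊕ ι) L, P = fun F s t =>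
    psi F D (fun i => s * W i + t * δ (W i)) (s * H + t * δ H) := ⟨_, rfl⟩
  obtain ⟨N, hN⟩ : ∃ N : Fin 3 → L, N = ![1, W o, θ] := ⟨_, rfl⟩
  have e0 : ∀ (s t : L) (f : L) (a : Fin 3 → k), f = algebraMap k L (a 0) +
      W o * algebraMap k L (a 1) + θ * algebraMap k L (a 2) →
      aeval (fun j => s * N j + t * δ (N j)) (dot a X : MvPolynomial (Fin 3) k) =
        s * f + t * δ f := fun s t f a hf => by
    simp [dot, Fin.sum_univ_three, hN, hf]
    ring
  have e1 : ∀ F s t, map (aeval fun j => s * N j + t * δ (N j) : _ →ₐ[k] L).toRingHom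
      (psi F D (fun i => dot (a i) X) (dot b X : MvPolynomial (Fin 3) k)) = P F s t :=
    fun F s t => by rw [map_psi, hP]; simp only [e0 s t _ _ (ha _), e0 s t _ _ hb]
  obtain ⟨s0, t0, st0, p0⟩ : ∃ s t, (s ≠ 0 ∨ t ≠ 0) ∧ P F0 s t ≠ 0 := by
    by_contra! hn
    refine mul_ne_zero f0 h.gr.g_prime.ne_zero (funext_set (fun _ => Set.range (algebraMap L K))
      (fun _ => Set.infinite_range_of_injective (algebraMap L K).injective) fun x hx => ?_)
    choose u hu using fun i => hx i trivial
    obtain rfl := funext hu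
    rw [map_mul, map_zero, ← coe_aeval_eq_eval, mul_eq_zero, or_iff_not_imp_right]
    intro w0
    have w1 : ∑ i, W i * u i ≠ 0 := fun e => w0 (by
      simpa [lin] using congrArg (algebraMap L K) e)
    have h1 := congrArg (aeval (Sum.elim q fun i => algebraMap L K (u i)))
      (hn (∑ i, δ (W i) * u i) (-∑ i, W i * u i) (Or.inr (neg_ne_zero.2 w1)))
    have b0 := fun e => w1 (neg_eq_zero.1 (h.ani (s := ∑ i, δ (W i) * u i) e).2)
    rw [hP, psi_ev d0 b0, map_zero, mul_eq_zero] at h1
    rw [← h1.resolve_left (pow_ne_zero _ ((_root_.map_ne_zero _).2 b0)), pen]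
    refine (map_ev ((aeval _ : _ →ₐ[K] K).restrictScalars k) _ _ _).trans
      (ev_congr (fun i => ?_) (fun i => ?_) _)
    · simp only [cor, dot_comb, h.h0, h.h1]
      simp [-map_sum]
    · rw [cor, dot_comb, dot_alg, dot_alg]
      simp [-map_sum, mul_comm (algebraMap L K (∑ i, W i * u i))]
  have g := fun s t st => (h.gam l0 l1 hr d0 d1 (s := s) (t := t) st hω).1
  obtain ⟨n, hn, ⟨s1, t1⟩, n0⟩ := exists_top (fun z : L × L => P F1 z.1 z.2)
    ⟨_, fun z => e1 F1 z.1 z.2 ▸ (ok_deg _).map _⟩ (j := (s0 + ω * t0, -t0)) fun e => p0 (by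
      have := g s0 t0 st0
      simp only [hP] at e ⊢
      rw [e, map_zero] at this
      simpa [c0] using this)
  obtain ⟨G, hG, e2⟩ : ∃ G : MvPolynomial (ι ⊕ ι) k → MvPolynomial (Fin 3) k,
      (∀ F, F.totalDegree ≤ D → (G F).IsHomogeneous (2 * (2 * D))) ∧ ∀ F s t,
      aeval (fun j => s * N j + t * δ (N j)) (G F) = fis n (P F s t) (P F s t) :=
    ⟨fun F => fis n (psi F D (fun i => dot (a i) X) (dot b X))
      (psi F D (fun i => dot (a i) X) (dot b X)), fun F hF => hom_of_two (by
        refine (fis_map (aeval fun i => C 2 * X i : _ →ₐ[k] _).toRingHom n _ _).symm.trans ?_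
        simp only [map_psi, map_dot, aeval_X, dot_mul, psi_smul hF, fis_C]
        rw [← pow_mul, mul_comm _ 2, map_pow]),
      fun F s t => by rw [← e1, fis_map]; rfl⟩
  have r1 : ∀ s t, aeval (fun j => (s + ω * t) * N j + -t * δ (N j)) (G F1) =
      c ^ 2 * aeval (fun j => s * N j + t * δ (N j)) (G F0) := fun s t => by
    rw [e2, e2]
    by_cases st : s ≠ 0 ∨ t ≠ 0
    · rw [← fis_iso _ _ (rb_orth h.nw) n (Or.inr (hn (_, _))), hP, g s t st, fis_C]
    · obtain ⟨rfl, rfl⟩ : s = 0 ∧ t = 0 := by simpa using st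
      have z0 := psi_smul d0 W H 0
      have z1 := psi_smul d1 W H 0
      simp only [zero_mul, zero_pow (mul_ne_zero two_ne_zero D0), map_zero] at z0 z1
      simp [hP, z0, z1]
  have r0 : ∀ s t, aeval (fun j => s * N j + t * δ (N j)) (G F1) =
      c ^ 2 * aeval (fun j => (s + ω * t) * N j + -t * δ (N j)) (G F0) := fun s t => by
    simpa using r1 (s + ω * t) (-t)
  have g1 : G F1 ≠ 0 := fun e => n0 (by rw [← e2, e, map_zero])
  have g0 : G F0 ≠ 0 := fun e => n0 (by rw [← e2, r0, e, map_zero, mul_zero])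
  obtain ⟨B, hB⟩ : ∃ B : MvPolynomial (Fin 3) k, B = ∑ i, dot (a i) X ^ 2 := ⟨_, rfl⟩
  have B0 : B.IsHomogeneous 2 := hB ▸ IsHomogeneous.sum _ _ _ fun i _ => (lin_hom (a i)).pow 2
  have B1 : ∀ s t, aeval (fun j => s * N j + t * δ (N j)) B = ∑ i, (s * W i + t * δ (W i)) ^ 2 :=
    fun s t => by simp only [hB, map_sum, map_pow, e0 s t _ _ (ha _)]
  have ee : ∀ (G : MvPolynomial (Fin 3) k) (f : L → L),
      H22.ev G (f 1) (f (W o)) (f θ) = aeval (fun j => f (N j)) G := fun G f =>
    congrArg (aeval · G) (funext fun j => by rw [hN]; fin_cases j <;> rfl)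
  have B2 : aeval N B = ∑ i, W i ^ 2 := by simpa using B1 1 0
  by_cases hne : ∀ c, G F0 * G F1 ≠ C c * B ^ (2 * (2 * D))
  · refine Or.inl (h.quad θ0 ha hb (H22.pcc_real (fun _ => h.cst) (t := W o) (by simp [h.wo])
      h.alg B0 (fun z e => ?_) (fun e => ?_) (by
        simpa [two_mul] using (hG _ d0).mul (hG _ d1)) hne fun s t => ?_).2)
    · rw [ee B fun x => x + z * δ x] at e
      simpa using (h.ani ((B1 1 z).symm.trans (by simpa using e))).1
    · rw [ee B fun x => δ x] at e
      simpa using (h.ani ((B1 0 1).symm.trans (by simpa using e))).2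
    · have : δ (H22.ev B 1 (W o) θ) / H22.ev B 1 (W o) θ = ω := by
        rw [ee B fun x => x, B2, div_eq_iff h.nw, hω]
        simp [Derivation.leibniz_pow, Finset.mul_sum, mul_comm, mul_left_comm]
      rw [this, ee _ fun x => s * x + t * δ x, ee _ fun x => (s + ω * t) * x - t * δ x]
      simp only [sub_eq_add_neg, ← neg_mul, map_mul, r1, r0 s t]
      ring
  · obtain ⟨κ, hκ⟩ : ∃ c, G F0 * G F1 = C c * B ^ (2 * (2 * D)) := by simpa using hne
    have κ0 : algebraMap k L κ ≠ 0 := fun e => mul_ne_zero g0 g1 (by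
      simp [hκ, (_root_.map_eq_zero _).1 e])
    have n1 : aeval N (G F0) ≠ 0 := fun e => by
      simpa [e, B2, h.nw, κ0] using congrArg (aeval N) hκ
    refine Or.inr ⟨?_, fun e => n1 ?_⟩
    · obtain ⟨T, hT⟩ : ∃ T : MvPolynomial (Fin 3) k →ₐ[k] Polynomial L, T = aeval fun i =>
        Polynomial.C (N i) + Polynomial.X * Polynomial.C (δ (N i)) := ⟨_, rfl⟩
      have T0 : ∀ G z, (T G).eval z = aeval (fun j => 1 * N j + z * δ (N j)) G := fun G z => by
        have := comp_aeval_apply (fun i => Polynomial.C (N i) + Polynomial.X *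
          Polynomial.C (δ (N i))) ((Polynomial.aeval z : _ →ₐ[L] L).restrictScalars k) G
        rw [hT]
        exact this.trans (congrArg (aeval · G) (funext fun j => by simp; ring))
      have T1 : ∀ (G : MvPolynomial (Fin 3) k) (m), G.IsHomogeneous m → (T G).natDegree ≤ m :=
        fun G m hG => by
          rw [hT, ← aeval_map_algebraMap L, ← mul_one m]
          exact aeval_natDegree_le _ (hG.map _).totalDegree_le _ fun i => by compute_degree
      have T2 : (T B).natDegree = 2 := Polynomial.natDegree_eq_of_le_of_coeff_ne_zero (T1 _ _ B0) (by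
        have : T B = Polynomial.C (∑ i, δ (W i) ^ 2) * Polynomial.X ^ 2 + Polynomial.C
            (2 * ∑ i, δ (W i) * W i) * Polynomial.X + Polynomial.C (∑ i, W i ^ 2) :=
          Polynomial.funext fun z => by
            simp only [T0, B1, Polynomial.eval_add, Polynomial.eval_mul, Polynomial.eval_C,
              Polynomial.eval_pow, Polynomial.eval_X, Finset.mul_sum, Finset.sum_mul,
              ← Finset.sum_add_distrib]
            exact Finset.sum_congr rfl fun i _ => by ring
        rw [this]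
        simpa [-map_sum, Polynomial.coeff_X, Polynomial.coeff_C] using
          fun e => one_ne_zero (h.ani (s := 0) (t := 1) (by simpa using e)).2)
      have T3 : Irreducible (T B) := Polynomial.irreducible_of_degree_le_three_of_not_isRoot
        (by simp [T2]) fun z e => one_ne_zero (h.ani ((B1 1 z).symm.trans ((T0 _ _).symm.trans e))).1
      have T4 := congrArg T hκ
      simp only [map_mul, map_pow, algHom_C, Polynomial.algebraMap_apply] at T4
      have h0 := congrArg (Polynomial.eval 0)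
        (pow_fac κ0 T3 T2 (T1 _ _ (hG _ d0)) (T1 _ _ (hG _ d1)) T4)
      have h1 := congrArg (Polynomial.eval 0)
        (pow_fac κ0 T3 T2 (T1 _ _ (hG _ d1)) (T1 _ _ (hG _ d0)) ((mul_comm _ _).trans T4))
      have h2 : aeval N (G F1) = c ^ 2 * aeval N (G F0) := by simpa using r1 1 0
      simp only [Polynomial.eval_mul, T0, one_mul, zero_mul, add_zero,
        Polynomial.eval_natCast] at h0 h1
      simp only [hT, der_line, h2, B2, Derivation.leibniz, Derivation.leibniz_pow, smul_eq_mul,
        nsmul_eq_mul] at h0 h1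
      refine mul_left_cancel₀ (mul_ne_zero (mul_ne_zero h.nw n1) (mul_ne_zero two_ne_zero c0)) ?_
      push_cast at h0 h1
      linear_combination h1 - c ^ 2 * h0
    · have := (h.gam l0 l1 hr d0 d1 (s := 1) (t := 0) (by simp) hω).2 rfl e
      simpa [hP, this] using e2 F0 1 0

end R1

omit [Algebra k L] [Algebra L K] [IsScalarTower k L K] [Field L] in
lemma flat {q w : ι → K} {e : ι} {d : ι → Derivation k K K} (G : Gr q e w d)
    (h : ∀ i j, d j (w i) = 0) : Quad k q := by
  choose a ha using fun i => G.cst' (h i)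
  obtain ⟨b, hb⟩ := G.cst' (a := ∑ i, w i * q i) fun j => by
    simp [h, G.tan]
  refine ⟨lin a - C b, fun z => ?_, (totalDegree_sub _ _).trans (max_le
    ((lin_hom a).totalDegree_le.trans one_le_two) (by simp)), by simp [aeval_lin, ← ha, hb]⟩
  have := congrArg (pderiv e) z
  rw [map_sub, pderiv_lin, pderiv_C, sub_zero, map_zero, C_eq_zero] at this
  simpa [this, G.we] using ha e

/-- An invariant vanishes on the tangent lines only for quadrics. -/
theorem rts [CharZero k] : RTS k ι := fun K _ _ _ _ q w e d F G hr hF F0 inv dv => by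
  by_cases h0 : ∀ i j, d j (w i) = 0
  · exact flat G h0
  obtain ⟨i, j, h0⟩ : ∃ i j, d j (w i) ≠ 0 := by simpa using h0
  obtain ⟨L, δ, W, H, lam, o, rfl, h⟩ := exists_R1 G hr h0
  have : CharZero L := algebraRat.charZero _
  exact (h.two (h.cone_or.elim id fun ⟨y, y0, y1, y2⟩ => h.cone hF F0 inv y0 y1 y2 (Or.inl dv))
    hF hF one_ne_zero F0 (by simpa using inv)).resolve_right fun e => e.2 dv

/-- The factor of a one step relation is constant, except for quadrics. -/
theorem rone [CharZero k] : RONE k ι := fun K _ _ _ _ q w e d F0 F1 c G hr l0 l1 f0 c0 rel => by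
  by_cases h0 : ∀ i j, d j (w i) = 0
  · exact Or.inr (flat G h0)
  obtain ⟨i, j, h0⟩ : ∃ i j, d j (w i) ≠ 0 := by simpa using h0
  obtain ⟨L, δ, W, H, lam, o, rfl, h⟩ := exists_R1 G hr h0
  have : CharZero L := algebraRat.charZero _
  by_cases dv : (lin fun i => algebraMap L K (W i)) ∣ pen q F0
  · have f1 : pen q F1 ≠ 0 := fun e => by simp [e, c0, f0] at rel
    exact Or.inr (rts K q _ e d _ G hr (l0.mul l1) (by simp [f0, f1]) (h.inv rel)
      (by simpa using dv.mul_right _))
  obtain ⟨b, rfl⟩ := h.cL l0 l1 c0 rel dv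
  have b0 : b ≠ 0 := fun e => c0 (by simp [e])
  have key : δ b = 0 → ∃ c0, algebraMap L K b = algebraMap k K c0 := fun e => by
    obtain ⟨c, rfl⟩ := h.cst e
    exact ⟨c, (IsScalarTower.algebraMap_apply k L K c).symm⟩
  exact (h.r2 l0 l1 b0 f0 rel).elim (fun e => Or.inl (key e)) fun hc =>
    (h.two hc l0 l1 b0 f0 rel).elim Or.inr fun e => Or.inl (key e.1)

end Pool.Agent.MP_249f74_an.H44
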