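import Pool.Agent.MP_249f74_an.H65.Defs
import Pool.Agent.MP_249f74_an.H17.Base
import Pool.Agent.MP_249f74_an.H88.Deriv

/-!
Hypersurfaces whose second fundamental form has rank one: the field of the tangent hyperplane.
-/

open MvPolynomial IntermediateField

namespace Pool.Agent.MP_249f74_an.H44

open H65

variable {k L K ι : Type} [Field k] [Field L] [Field K] [Algebra k K] [Fintype ι] [DecidableEq ι]

/-- A linear form with coefficients in `L`. -/
def dot {B : Type} [CommRing B] [Algebra L B] (a : ι → L) (x : ι → B) : B :=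
  ∑ i, algebraMap L B (a i) * x i

section Dot

omit [DecidableEq ι]

variable {B B' : Type} [CommRing B] [Algebra L B] [CommRing B'] [Algebra L B']

lemma dot_add (a : ι → L) (x y : ι → B) : dot a (fun i => x i + y i) = dot a x + dot a y := by
  simp [dot, mul_add, Finset.sum_add_distrib]

lemma dot_sub (a : ι → L) (x y : ι → B) : dot a (fun i => x i - y i) = dot a x - dot a y := by
  simp [dot, mul_sub, Finset.sum_sub_distrib]

lemma dot_mul (a : ι → L) (t : B) (x : ι → B) : dot a (fun i => t * x i) = t * dot a x := by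
  simp [dot, Finset.mul_sum, mul_left_comm]

lemma dot_alg (a b : ι → L) :
    dot a (fun i => algebraMap L B (b i)) = algebraMap L B (∑ i, a i * b i) := by simp [dot]

lemma map_dot (φ : B →ₐ[L] B') (a : ι → L) (x : ι → B) : φ (dot a x) = dot a fun i => φ (x i) := by
  simp [dot]

lemma der_dot (D : Derivation L B B) (a : ι → L) (x : ι → B) :
    D (dot a x) = dot a fun i => D (x i) := by simp [dot]

end Dot

lemma dot_ite {B : Type} [CommRing B] [Algebra L B] (a : ι → L) (e : ι) (t : B) :
    dot a (fun i => if i = e then t else 0) = algebraMap L B (a e) * t := by simp [dot]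

omit [Fintype ι] [DecidableEq ι] in
lemma taylor [CharZero L] {A : Type} [CommRing A] [Algebra L A] (D : Derivation L A A)
    {x y : ι → A} (hx : ∀ i, D (x i) = y i) (hy : ∀ i, D (y i) = 0) {G : MvPolynomial ι L}
    (h : aeval x G = 0) : aeval (fun i => x i + y i) G = 0 := by
  have h1 : (fun i => H17.tay D (x i)) = fun i => (Polynomial.coeToPowerSeries.algHom A).restrictScalars
      L (Polynomial.C (x i) + Polynomial.X * Polynomial.C (y i)) := by
    ext i n
    rcases n with _ | _ | n <;>
      simp [H17.coeff_tay, hx, hy, Function.iterate_fixed, PowerSeries.coeff_C]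
  have h2 := congrArg (H17.tay D) h
  rw [map_zero, ← AlgHom.comp_apply, comp_aeval, h1, ← comp_aeval, AlgHom.comp_apply] at h2
  have h3 := congrArg ((Polynomial.aeval 1 : Polynomial A →ₐ[A] A).restrictScalars L)
    (Polynomial.coe_injective A (a₂ := 0) (by simpa using h2))
  rw [map_zero, ← AlgHom.comp_apply, comp_aeval] at h3
  simpa using h3

variable [Algebra k L] [Algebra L K] [IsScalarTower k L K]

/-- The tangent hyperplane `W . x = H` depends on one parameter. -/
structure R1 (q : ι → K) (e : ι) (d : ι → Derivation k K K) (δ : Derivation k L L) (W : ι → L)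
    (H : L) (lam : K) (o : ι) : Prop where
  gr : Gr q e (fun i => algebraMap L K (W i)) d
  l0 : lam ≠ 0
  dl : ∀ j (a : L), lam * d j (algebraMap L K a) = algebraMap L K (δ (W j) * δ a)
  wo : δ (W o) = 1
  h0 : dot W q = algebraMap L K H
  mx : ∀ a : K, (∀ j, d j a = algebraMap L K (δ (W j)) * d o a) → ∃ b : L, a = algebraMap L K b

namespace R1

variable {q : ι → K} {e o : ι} {d : ι → Derivation k K K} {δ : Derivation k L L} {W : ι → L}
  {H : L} {lam : K} (h : R1 q e d δ W H lam o)
include h

lemma we : W e = 1 := (algebraMap L K).injective (by simpa using h.gr.we)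

lemma me : δ (W e) = 0 := by simp [h.we]

lemma dd (a : L) : lam * d o (algebraMap L K a) = algebraMap L K (δ a) := by simp [h.dl, h.wo]

lemma d_dot (a : ι → L) (j : ι) : lam * d j (dot a q) = algebraMap L K (δ (W j)) *
    dot (fun i => δ (a i)) q + lam * algebraMap L K (a j - a e * W j) := by
  have := fun a => h.dl j a
  simp only [map_mul] at this
  simp only [dot, map_sum, Derivation.leibniz, smul_eq_mul, Finset.mul_sum, mul_add,
    mul_left_comm lam (q _), this, h.gr.dq, Finset.sum_add_distrib, mul_sub, mul_ite, mul_one,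
    mul_zero, Finset.sum_sub_distrib, Finset.sum_ite_eq', Finset.mem_univ, if_true, map_sub,
    map_mul]
  rw [add_comm]
  congr 1
  exact Finset.sum_congr rfl fun i _ => by ring

lemma h1 : dot (fun i => δ (W i)) q = algebraMap L K (δ H) := by
  simpa [h.h0, h.dd, h.wo, h.we] using (h.d_dot W o).symm

lemma h2 : lam = algebraMap L K (δ (δ H)) - dot (fun i => δ (δ (W i))) q := by
  have := h.d_dot (fun i => δ (W i)) o
  simp only [h.h1, h.dd, h.wo, h.me, map_one, zero_mul, sub_zero, mul_one, one_mul] at this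
  rw [this, add_sub_cancel_left]

lemma cst {a : L} (ha : δ a = 0) : ∃ c, a = algebraMap k L c := by
  obtain ⟨c, hc⟩ := h.gr.cst' (a := algebraMap L K a) fun j =>
    mul_left_cancel₀ h.l0 (by simp [h.dl, ha])
  exact ⟨c, (algebraMap L K).injective (by rw [hc, ← IsScalarTower.algebraMap_apply])⟩

lemma alg [CharZero k] (a : L) : IsAlgebraic k⟮W o⟯ a := by
  by_contra ha
  have : CharZero k⟮W o⟯ := algebraRat.charZero _
  obtain ⟨D, hD⟩ := H88.exists_derivation (k := k⟮W o⟯) (x := algebraMap L K a)
    fun e => ha ((isAlgebraic_algebraMap_iff (algebraMap L K).injective).1 e)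
  have h1 : ∀ a : L, lam * D (algebraMap L K a) =
      (∑ j, D (q j) * algebraMap L K (δ (W j))) * algebraMap L K (δ a) := fun a => by
    have := (h.gr.along (RingHom.id K) D.toLinearMap.toAddMonoidHom (fun a b => by simp)
      (fun c => by
        rw [IsScalarTower.algebraMap_apply k k⟮W o⟯ K]; exact D.map_algebraMap _)).2
      (algebraMap L K a)
    simp only [LinearMap.toAddMonoidHom_coe, Derivation.coeFn_coe, RingHom.id_apply] at this
    simp only [this, Finset.mul_sum, Finset.sum_mul, mul_left_comm lam, h.dl, map_mul, mul_assoc]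
  have h2 := h1 (W o)
  rw [show D (algebraMap L K (W o)) = 0 from D.map_algebraMap (AdjoinSimple.gen k (W o)), h.wo,
    map_one, mul_one, mul_zero] at h2
  exact h.l0 (by simpa [hD, ← h2] using h1 a)

/-- Identities at the generic point hold on the whole ruling. -/
theorem sp [CharZero L] {σ : Type} {G : MvPolynomial (ι ⊕ σ) L}
    (h0 : aeval (Sum.elim (fun i => C (q i)) X : ι ⊕ σ → MvPolynomial σ K) G = 0)
    {B : Type} [CommRing B] [Algebra K B] [Algebra L B] [IsScalarTower L K B] {x : ι → B}
    (hx : dot W x = algebraMap L B H) (hm : dot (fun i => δ (W i)) x = algebraMap L B (δ H))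
    (u : σ → B) : aeval (Sum.elim x u) G = 0 := by
  obtain ⟨Y, hY⟩ : ∃ Y : ι → MvPolynomial (ι ⊕ σ) K, Y = fun i => X (Sum.inl i) := ⟨_, rfl⟩
  obtain ⟨y, hy⟩ : ∃ y : ι → MvPolynomial (ι ⊕ σ) K, y = fun i => Y i -
    (if i = o then dot (fun i => δ (W i)) Y else 0) - if i = e then dot W Y -
      algebraMap L _ (W o) * dot (fun i => δ (W i)) Y else 0 := ⟨_, rfl⟩
  have y1 : dot W y = 0 := by simp [hy, dot_sub, dot_ite, h.we]
  have y2 : dot (fun i => δ (W i)) y = 0 := by simp [hy, dot_sub, dot_ite, h.me, h.wo]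
  obtain ⟨D, D1, D2⟩ := exists_der (k := L) (K := K) (ι := ι ⊕ σ)
    { toFun := fun a => ∑ j, C (d j a) * y j
      map_zero' := by simp
      map_add' := fun a b => by simp [add_mul, Finset.sum_add_distrib] }
    (fun a b => by simp [add_mul, Finset.sum_add_distrib, Finset.mul_sum, mul_assoc])
    (fun c => by
      have : ∀ j, d j (algebraMap L K c) = lam⁻¹ * algebraMap L K (δ c) *
          algebraMap L K (δ (W j)) := fun j => by
        rw [mul_assoc, ← map_mul, mul_comm (δ c), ← h.dl, inv_mul_cancel_left₀ h.l0]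
      simp only [AddMonoidHom.coe_mk, ZeroHom.coe_mk, this, map_mul, mul_assoc, ← Finset.mul_sum]
      exact mul_eq_zero_of_right _ (mul_eq_zero_of_right _ y2)) 0
  have h1 := taylor D (x := Sum.elim (fun i => C (q i)) fun i => X (Sum.inr i))
    (y := Sum.elim y 0) (G := G) (by
      rintro (i | i)
      · have : ∑ j, C (algebraMap L K (W j)) * y j = 0 := y1
        by_cases hi : i = e <;> simp [D1, h.gr.dq, hi, sub_mul, apply_ite, this]
      · simp [D2]) (by
      rintro (i | i)
      · have : ∀ a : ι → L, D (dot a Y) = 0 := fun a => by rw [der_dot]; simp [hY, D2, dot]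
        simp only [hy, Sum.elim_inl, map_sub, apply_ite D, this, D.leibniz, D.map_algebraMap]
        simp [hY, D2]
      · simp) (by
      have := congrArg ((rename (Sum.inr : σ → ι ⊕ σ) : _ →ₐ[K] _).restrictScalars L) h0
      rw [map_zero, ← AlgHom.comp_apply, comp_aeval] at this
      rw [← this]
      congr 2
      ext1 (i | i) <;> simp)
  obtain ⟨ψ, hψ⟩ : ∃ ψ : MvPolynomial (ι ⊕ σ) K →ₐ[L] B, ψ = (aeval
    (Sum.elim (fun i => x i - algebraMap K B (q i)) u)).restrictScalars L := ⟨_, rfl⟩
  have h2 := congrArg ψ h1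
  rw [map_zero, ← AlgHom.comp_apply, comp_aeval] at h2
  have h3 : ∀ a, dot a (fun i => ψ (Y i)) = dot a x - algebraMap K B (dot a q) := fun a => by
    rw [← IsScalarTower.toAlgHom_apply L, map_dot, ← dot_sub]
    simp [hψ, hY]
  rw [← h2]
  congr 2
  ext (i | i)
  · simp only [hy, Sum.elim_inl, map_add, map_sub, apply_ite ψ, map_mul, map_dot, h3, hx, hm, h.h0,
      h.h1, ← IsScalarTower.algebraMap_apply, sub_self, map_zero, mul_zero, ite_self]
    simp [hψ, hY]
  · simp [hψ]

end R1

omit [Algebra k L] [Algebra L K] [IsScalarTower k L K] [Field L] in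
/-- The rank one setting. -/
theorem exists_R1 [CharZero K] {q w : ι → K} {e : ι} {d : ι → Derivation k K K} (G : Gr q e w d)
    (hr : Rk1 w d) {i j : ι} (h0 : d j (w i) ≠ 0) : ∃ (L : IntermediateField k K)
      (δ : Derivation k L L) (W : ι → L) (H : L) (lam : K) (o : ι),
      (w = fun i => algebraMap L K (W i)) ∧ R1 q e d δ W H lam o := by
  have b1 : ∀ a b, bil w d (Pi.single a 1) (Pi.single b 1) = d b (w a) := fun a b => by
    simp [bil, Pi.single_apply]
  have m0 : d i (w i) ≠ 0 := fun e => h0 (by
    simpa [b1, e] using (hr (Pi.single i 1) (Pi.single j 1)).symm)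
  obtain ⟨lam, hl⟩ : ∃ lam, lam * d i (w i) = 1 := ⟨_, inv_mul_cancel₀ m0⟩
  have l0 := left_ne_zero_of_mul_eq_one hl
  obtain ⟨m, hm⟩ : ∃ m : ι → K, ∀ j, m j = lam * d j (w i) := ⟨_, fun _ => rfl⟩
  have r1 : ∀ a b, lam * d b (w a) = m a * m b := fun a b => by
    have h1 := hr (Pi.single i 1) (Pi.single a 1 + Pi.single b 1)
    have h2 := hr (Pi.single i 1) (Pi.single a 1)
    have h3 := hr (Pi.single i 1) (Pi.single b 1)
    simp only [bil, Pi.add_apply, mul_add, add_mul, Finset.sum_add_distrib] at h1
    simp only [← bil.eq_1, b1, G.sym b a] at h1 h2 h3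
    rw [hm, hm]
    linear_combination (lam ^ 2 / 2) * (h1 - h2 - h3) - lam * d b (w a) * hl
  have mi : m i = 1 := by rw [hm, hl]
  have dl : ∀ j, d j lam = m j * d i lam - lam * d i (m j) := fun j => by
    have h1 := congrArg (d j) hl
    rw [hm]
    simp only [Derivation.leibniz, smul_eq_mul, Derivation.map_one_eq_zero, G.comm j i] at h1 ⊢
    linear_combination lam * h1 - d j lam * hl
  let L : IntermediateField k K :=
    { carrier := {a | ∀ j, d j a = m j * d i a}
      mul_mem' := fun ha hb j => by
        simp only [Derivation.leibniz, smul_eq_mul, ha j, hb j]; ring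
      add_mem' := fun ha hb j => by simp only [map_add, ha j, hb j]; ring
      algebraMap_mem' := fun c j => by simp
      inv_mem' := fun a ha j => by
        simp only [Derivation.leibniz_inv, smul_eq_mul, ha j]; ring }
  have hL : ∀ a : L, lam * d i a ∈ L := fun a j => by
    simp only [Derivation.leibniz, smul_eq_mul, G.comm j i, a.2 j, dl j]; ring
  let δ : Derivation k L L := Derivation.mk'
    { toFun := fun a => ⟨_, hL a⟩
      map_add' := fun a b => Subtype.ext (by simp [mul_add])
      map_smul' := fun c a => Subtype.ext (by simp) }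
    fun a b => Subtype.ext (by simp; ring)
  have hδ : ∀ a : L, (δ a : K) = lam * d i a := fun a => rfl
  have hw : ∀ a, w a ∈ L := fun a j => mul_left_cancel₀ l0 (by
    rw [mul_left_comm, r1, r1, mi]; ring)
  have hH : ∑ a, w a * q a ∈ L := fun j => mul_left_cancel₀ l0 (by
    simp only [map_sum, Derivation.leibniz, smul_eq_mul, Finset.sum_add_distrib, G.tan, zero_add,
      Finset.mul_sum, mul_left_comm lam, r1, mi]
    exact Finset.sum_congr rfl fun a _ => by ring)
  have hd : ∀ j, (δ ⟨w j, hw j⟩ : K) = m j := fun j => by rw [hδ, r1, mi, mul_one]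
  refine ⟨L, δ, fun a => ⟨w a, hw a⟩, ⟨_, hH⟩, lam, i, rfl, G, l0, fun j a => ?_,
    Subtype.ext (by rw [hd, mi]; rfl), rfl, fun a ha => ⟨⟨a, fun j => ?_⟩, rfl⟩⟩
  · change lam * d j a = (δ _ : K) * (δ a : K)
    rw [hd, hδ, a.2 j, mul_left_comm]
  · rw [ha j, ← hd]; rfl

end Pool.Agent.MP_249f74_an.H44
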